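import Pool.Agent.Lib.MP_3c7f5c_ag.Res.Cox1

/-!
# Charts in Cox coordinates
-/

open Set

namespace Pool.Agent.HZ

namespace FanData
variable {n r K : ℕ} (F : FanData n r K)

theorem chart0_coord (l : Fin K) (ξ : Fin r → ℂ) (h : F.Adm l ξ) :
    F.chart0 l (F.coord l ξ) = fun m => F.Psi m ξ := by
  obtain ⟨g, hg, hg1, hx⟩ := F.exists_scale l ξ h
  funext m
  unfold chart0
  rw [show F.xi l (F.coord l ξ) = fun ρ => g ρ * ξ ρ from funext hx, F.Psi_scale m ξ g hg hg1]

theorem chart_eq_iff (k l : Fin K) (z z' : Fin n → ℂ) :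
    F.chart k z = F.chart l z' ↔ F.Adm l (F.xi k z) ∧ F.coord l (F.xi k z) = z' := by
  classical
  constructor
  · intro h
    have h0 : F.chart0 k z = F.chart0 l z' := congrArg Subtype.val h
    have h1 : F.Psi l (F.xi k z) = F.Psi l (F.xi l z') := congrFun h0 l
    have h2 : F.Psi l (F.xi l z') = ((z' : Fin n → ℂ) : OnePoint (Fin n → ℂ)) := by
      unfold Psi
      rw [if_pos (F.adm_xi l z'), F.coord_xi]
    rw [h2] at h1
    by_cases hA : F.Adm l (F.xi k z)
    · refine ⟨hA, ?_⟩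
      unfold Psi at h1
      rw [if_pos hA] at h1
      exact OnePoint.coe_injective h1
    · unfold Psi at h1
      rw [if_neg hA] at h1
      exact absurd h1 (OnePoint.infty_ne_coe z')
  · rintro ⟨hA, rfl⟩
    apply Subtype.ext
    exact (F.chart0_coord l (F.xi k z) hA).symm

theorem chart_mem_range (k l : Fin K) (z : Fin n → ℂ) :
    F.chart k z ∈ Set.range (F.chart l) ↔ F.Adm l (F.xi k z) := by
  constructor
  · rintro ⟨z', hz'⟩
    exact ((F.chart_eq_iff k l z z').1 hz'.symm).1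
  · intro h
    exact ⟨F.coord l (F.xi k z), ((F.chart_eq_iff k l z _).2 ⟨h, rfl⟩).symm⟩

theorem chart_eq_scale (k l : Fin K) (z z' : Fin n → ℂ) (h : F.chart k z = F.chart l z') :
    ∃ g : Fin r → ℂ, (∀ ρ, g ρ ≠ 0) ∧ (∀ i, ∏ ρ, g ρ ^ F.rho ρ i = 1) ∧
      ∀ ρ, F.xi l z' ρ = g ρ * F.xi k z ρ := by
  obtain ⟨hA, rfl⟩ := (F.chart_eq_iff k l z z').1 h
  exact F.exists_scale l (F.xi k z) hA

theorem mu_chart (k : Fin K) (z : Fin n → ℂ) : F.mu (F.chart k z) = F.muC (F.xi k z) := by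
  unfold mu
  have h := Classical.choose_spec (F.chart k z).2
  have h1 : F.chart k z = F.chart (Classical.choose (F.chart k z).2).1
      (Classical.choose (F.chart k z).2).2 := Subtype.ext h.symm
  obtain ⟨g, -, hg1, hx⟩ := F.chart_eq_scale k _ z _ h1
  rw [show F.xi (Classical.choose (F.chart k z).2).1 (Classical.choose (F.chart k z).2).2 =
    fun ρ => g ρ * F.xi k z ρ from funext hx, F.muC_scale _ g hg1]

theorem eval_xiPoly (k : Fin K) (z : Fin n → ℂ) (ρ : Fin r) :
    MvPolynomial.eval z (F.xiPoly k ρ) = F.xi k z ρ := by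
  unfold xiPoly xi
  by_cases h : ∃ j, F.cone k j = ρ
  · rw [dif_pos h, dif_pos h, MvPolynomial.eval_X]
  · rw [dif_neg h, dif_neg h, map_one]

theorem mu_chart_poly (k : Fin K) (z : Fin n → ℂ) (i : Fin n) :
    F.mu (F.chart k z) i = MvPolynomial.eval z (F.muPoly k i) := by
  rw [mu_chart]
  unfold muC muPoly
  rw [map_prod]
  refine Finset.prod_congr rfl fun ρ _ => ?_
  rw [map_pow, eval_xiPoly]

theorem chart_injective (k : Fin K) : Function.Injective (F.chart k) := by
  intro z z' h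
  have h1 := ((F.chart_eq_iff k k z z').1 h).2
  rw [F.coord_xi] at h1
  exact h1

theorem chart_cover (y : F.Y) : ∃ k z, F.chart k z = y := by
  obtain ⟨⟨k, z⟩, h⟩ := y.2
  exact ⟨k, z, Subtype.ext h⟩

end FanData

end Pool.Agent.HZ
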