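import Pool.Agent.Lib.MP_3c7f5c_ag.ResDefs

/-!
# Cox coordinates
-/

open Set

namespace Pool.Agent.HZ

namespace FanData
variable {n r K : ℕ} (F : FanData n r K)

theorem xi_cone (k : Fin K) (z : Fin n → ℂ) (j : Fin n) : F.xi k z (F.cone k j) = z j := by
  have h : ∃ j', F.cone k j' = F.cone k j := ⟨j, rfl⟩
  unfold xi
  rw [dif_pos h, F.inj k _ _ h.choose_spec]

theorem xi_other (k : Fin K) (z : Fin n → ℂ) (ρ : Fin r) (h : ∀ j, F.cone k j ≠ ρ) :
    F.xi k z ρ = 1 := by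
  unfold xi
  rw [dif_neg]
  rintro ⟨j, hj⟩
  exact h j hj

theorem adm_xi (k : Fin K) (z : Fin n → ℂ) : F.Adm k (F.xi k z) := by
  intro ρ h
  rw [F.xi_other k z ρ h]
  exact one_ne_zero

theorem coord_xi (k : Fin K) (z : Fin n → ℂ) : F.coord k (F.xi k z) = z := by
  classical
  funext m
  unfold coord
  rw [xi_cone, Finset.prod_eq_one, mul_one]
  intro ρ hρ
  rw [Finset.mem_filter] at hρ
  rw [F.xi_other k z ρ hρ.2, one_zpow]

theorem cox_prod_zpow {ι : Type*} (a : ℂ) (ha : a ≠ 0) (s : Finset ι) (f : ι → ℤ) :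
    ∏ i ∈ s, a ^ f i = a ^ (∑ i ∈ s, f i) := by
  classical
  induction s using Finset.induction_on with
  | empty => simp
  | insert i s hi ih => rw [Finset.prod_insert hi, Finset.sum_insert hi, zpow_add₀ ha, ih]

open scoped Classical in
/-- the rays inside and outside a cone -/
theorem cox_prod_split (l : Fin K) (f : Fin r → ℂ) :
    ∏ ρ, f ρ = (∏ j, f (F.cone l j)) *
      ∏ ρ ∈ Finset.univ.filter (fun ρ => ∀ j, F.cone l j ≠ ρ), f ρ := by
  rw [← Finset.prod_filter_mul_prod_filter_not Finset.univ (fun ρ => ∀ j, F.cone l j ≠ ρ) f,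
    mul_comm]
  congr 1
  have h : Finset.univ.filter (fun ρ => ¬ ∀ j, F.cone l j ≠ ρ) =
      Finset.univ.image (F.cone l) := by
    ext ρ
    simp
  rw [h, Finset.prod_image]
  intro j _ j' _ hj
  exact F.inj l j j' hj

open scoped Classical in
private noncomputable def gs (l : Fin K) (ξ : Fin r → ℂ) (ρ : Fin r) : ℂ :=
  if h : ∃ j, F.cone l j = ρ then
    ∏ σ ∈ Finset.univ.filter (fun σ => ∀ j, F.cone l j ≠ σ),
      ξ σ ^ (∑ i, F.B l h.choose i * (F.rho σ i : ℤ))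
  else (ξ ρ)⁻¹

open scoped Classical in
private theorem gs_cone (l : Fin K) (ξ : Fin r → ℂ) (m : Fin n) : gs F l ξ (F.cone l m) =
    ∏ σ ∈ Finset.univ.filter (fun σ => ∀ j, F.cone l j ≠ σ),
      ξ σ ^ (∑ i, F.B l m i * (F.rho σ i : ℤ)) := by
  have h : ∃ j', F.cone l j' = F.cone l m := ⟨m, rfl⟩
  unfold gs
  rw [dif_pos h, F.inj l _ _ h.choose_spec]

private theorem gs_other (l : Fin K) (ξ : Fin r → ℂ) (ρ : Fin r) (h : ∀ j, F.cone l j ≠ ρ) :
    gs F l ξ ρ = (ξ ρ)⁻¹ := by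
  unfold gs
  rw [dif_neg]
  rintro ⟨j, hj⟩
  exact h j hj

theorem exists_scale (l : Fin K) (ξ : Fin r → ℂ) (h : F.Adm l ξ) :
    ∃ g : Fin r → ℂ, (∀ ρ, g ρ ≠ 0) ∧ (∀ i, ∏ ρ, g ρ ^ F.rho ρ i = 1) ∧
      ∀ ρ, F.xi l (F.coord l ξ) ρ = g ρ * ξ ρ := by
  classical
  refine ⟨gs F l ξ, fun ρ => ?_, fun i => ?_, fun ρ => ?_⟩
  · by_cases hρ : ∃ j, F.cone l j = ρ
    · obtain ⟨j, rfl⟩ := hρ
      rw [gs_cone]
      refine Finset.prod_ne_zero_iff.2 fun σ hσ => ?_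
      rw [Finset.mem_filter] at hσ
      exact zpow_ne_zero _ (h σ hσ.2)
    · have h2 : ∀ j, F.cone l j ≠ ρ := fun j hj => hρ ⟨j, hj⟩
      rw [gs_other F l ξ ρ h2]
      exact inv_ne_zero (h ρ h2)
  · rw [F.cox_prod_split l]
    have h1 : ∏ m, gs F l ξ (F.cone l m) ^ F.rho (F.cone l m) i =
        ∏ σ ∈ Finset.univ.filter (fun σ => ∀ j, F.cone l j ≠ σ), ξ σ ^ F.rho σ i := by
      simp only [gs_cone]
      simp only [← Finset.prod_pow]
      rw [Finset.prod_comm]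
      refine Finset.prod_congr rfl fun σ hσ => ?_
      rw [Finset.mem_filter] at hσ
      have h3 : ∀ m : Fin n, (ξ σ ^ (∑ i', F.B l m i' * (F.rho σ i' : ℤ))) ^ F.rho (F.cone l m) i =
          ξ σ ^ ((∑ i', F.B l m i' * (F.rho σ i' : ℤ)) * (F.rho (F.cone l m) i : ℤ)) := by
        intro m
        rw [zpow_mul, zpow_natCast]
      simp only [h3]
      rw [cox_prod_zpow _ (h σ hσ.2)]
      have h4 : ∑ m, (∑ i', F.B l m i' * (F.rho σ i' : ℤ)) * (F.rho (F.cone l m) i : ℤ) =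
          (F.rho σ i : ℤ) := by
        simp only [Finset.sum_mul]
        rw [Finset.sum_comm]
        have h5 : ∀ i', ∑ m, F.B l m i' * (F.rho σ i' : ℤ) * (F.rho (F.cone l m) i : ℤ) =
            (F.rho σ i' : ℤ) * if i = i' then 1 else 0 := by
          intro i'
          rw [← F.AB l i i', Finset.mul_sum]
          exact Finset.sum_congr rfl fun m _ => by ring
        simp only [h5]
        simp
      rw [h4, zpow_natCast]
    rw [h1, ← Finset.prod_mul_distrib]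
    refine Finset.prod_eq_one fun σ hσ => ?_
    rw [Finset.mem_filter] at hσ
    rw [gs_other F l ξ σ hσ.2, ← mul_pow, mul_inv_cancel₀ (h σ hσ.2), one_pow]
  · by_cases hρ : ∃ j, F.cone l j = ρ
    · obtain ⟨j, rfl⟩ := hρ
      rw [xi_cone, gs_cone, mul_comm]
      rfl
    · have h2 : ∀ j, F.cone l j ≠ ρ := fun j hj => hρ ⟨j, hj⟩
      rw [gs_other F l ξ ρ h2, xi_other F l _ ρ h2, inv_mul_cancel₀ (h ρ h2)]

theorem cox_prod_g (g : Fin r → ℂ) (hg : ∀ ρ, g ρ ≠ 0)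
    (hg1 : ∀ i, ∏ ρ, g ρ ^ F.rho ρ i = 1) (c : Fin n → ℤ) :
    ∏ ρ, g ρ ^ (∑ i, c i * (F.rho ρ i : ℤ)) = 1 := by
  classical
  have h1 : ∀ ρ, g ρ ^ (∑ i, c i * (F.rho ρ i : ℤ)) = ∏ i, (g ρ ^ F.rho ρ i) ^ c i := by
    intro ρ
    rw [← cox_prod_zpow _ (hg ρ)]
    refine Finset.prod_congr rfl fun i _ => ?_
    rw [mul_comm, zpow_mul, zpow_natCast]
  simp only [h1]
  rw [Finset.prod_comm]
  refine Finset.prod_eq_one fun i _ => ?_
  rw [Finset.prod_zpow, hg1, one_zpow]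

theorem Psi_scale (l : Fin K) (ξ g : Fin r → ℂ) (hg : ∀ ρ, g ρ ≠ 0)
    (hg1 : ∀ i, ∏ ρ, g ρ ^ F.rho ρ i = 1) : F.Psi l (fun ρ => g ρ * ξ ρ) = F.Psi l ξ := by
  classical
  have hA : F.Adm l (fun ρ => g ρ * ξ ρ) ↔ F.Adm l ξ := by
    unfold Adm
    refine forall_congr' fun ρ => forall_congr' fun _ => ?_
    exact ⟨fun h => right_ne_zero_of_mul h, fun h => mul_ne_zero (hg ρ) h⟩
  have hC : F.coord l (fun ρ => g ρ * ξ ρ) = F.coord l ξ := by
    funext m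
    unfold coord
    simp only [mul_zpow]
    rw [Finset.prod_mul_distrib]
    have h1 := F.cox_prod_g g hg hg1 (F.B l m)
    rw [F.cox_prod_split l] at h1
    have h2 : ∏ j, g (F.cone l j) ^ (∑ i, F.B l m i * (F.rho (F.cone l j) i : ℤ)) =
        g (F.cone l m) := by
      simp only [F.BA l m]
      rw [Finset.prod_eq_single m]
      · simp
      · intro j _ hj
        rw [if_neg (Ne.symm hj), zpow_zero]
      · intro h
        exact absurd (Finset.mem_univ m) h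
    rw [h2] at h1
    linear_combination (ξ (F.cone l m) * ∏ ρ ∈ Finset.univ.filter (fun ρ => ∀ j, F.cone l j ≠ ρ),
      ξ ρ ^ (∑ i, F.B l m i * (F.rho ρ i : ℤ))) * h1
  unfold Psi
  by_cases h : F.Adm l ξ
  · rw [if_pos h, if_pos (hA.2 h), hC]
  · rw [if_neg h, if_neg fun h' => h (hA.1 h')]

theorem muC_scale (ξ g : Fin r → ℂ) (hg1 : ∀ i, ∏ ρ, g ρ ^ F.rho ρ i = 1) :
    F.muC (fun ρ => g ρ * ξ ρ) = F.muC ξ := by
  funext i
  unfold muC
  simp only [mul_pow]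
  rw [Finset.prod_mul_distrib, hg1, one_mul]

end FanData

end Pool.Agent.HZ
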