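import Pool.Agent.Lib.MP_3c7f5c_ag.DivDefs
import Pool.Agent.Lib.MP_3c7f5c_ag.Res.Cox1

/-!
# Separation identity, continuity of the charts (HZ-Sep)
-/

open Set

namespace Pool.Agent.HZ

namespace FanData
variable {n r K : ℕ} (F : FanData n r K)

private def sepE (k l : Fin K) (m : Fin n) : ℤ :=
  ∑ i, (F.h k i - F.h l i) * (F.rho (F.cone l m) i : ℤ)

private def sepD (k l : Fin K) (j : Fin n) : ℤ :=
  ∑ i, (F.h l i - F.h k i) * (F.rho (F.cone k j) i : ℤ)

private lemma sepE_nonneg (k l : Fin K) (m : Fin n) : 0 ≤ F.sepE k l m := by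
  unfold sepE
  have h := F.sep l k m
  simp only [sub_mul, Finset.sum_sub_distrib]
  linarith only [h]

private lemma sepD_nonneg (k l : Fin K) (j : Fin n) : 0 ≤ F.sepD k l j := by
  unfold sepD
  have h := F.sep k l j
  simp only [sub_mul, Finset.sum_sub_distrib]
  linarith only [h]

private lemma sepE_shared (k l : Fin K) (m j : Fin n) (hj : F.cone k j = F.cone l m) :
    F.sepE k l m = 0 := by
  have h1 := F.sepE_nonneg k l m
  have h2 : F.sepE k l m ≤ 0 := by
    unfold sepE
    have h := F.sep k l j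
    rw [hj] at h
    simp only [sub_mul, Finset.sum_sub_distrib]
    linarith only [h]
  exact le_antisymm h2 h1

private lemma sepD_shared (k l : Fin K) (m j : Fin n) (hj : F.cone l m = F.cone k j) :
    F.sepD k l j = 0 := by
  have h1 := F.sepD_nonneg k l j
  have h2 : F.sepD k l j ≤ 0 := by
    unfold sepD
    have h := F.sep l k m
    rw [hj] at h
    simp only [sub_mul, Finset.sum_sub_distrib]
    linarith only [h]
  exact le_antisymm h2 h1

private lemma sep_exp (k l : Fin K) (ρ : Fin r) :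
    ∑ m, (∑ i, F.B l m i * (F.rho ρ i : ℤ)) * F.sepE k l m =
      ∑ i, (F.h k i - F.h l i) * (F.rho ρ i : ℤ) := by
  unfold sepE
  have h1 : ∀ m, (∑ i, F.B l m i * (F.rho ρ i : ℤ)) *
      ∑ i, (F.h k i - F.h l i) * (F.rho (F.cone l m) i : ℤ) =
      ∑ i, ∑ i', (F.h k i - F.h l i) * (F.rho ρ i' : ℤ) *
        ((F.rho (F.cone l m) i : ℤ) * F.B l m i') := by
    intro m
    rw [mul_comm, Finset.sum_mul_sum]
    apply Finset.sum_congr rfl
    intro i _
    apply Finset.sum_congr rfl
    intro i' _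
    ring
  rw [Finset.sum_congr rfl (fun m _ => h1 m), Finset.sum_comm]
  apply Finset.sum_congr rfl
  intro i _
  rw [Finset.sum_comm]
  have h2 : ∀ i', ∑ m, (F.h k i - F.h l i) * (F.rho ρ i' : ℤ) *
      ((F.rho (F.cone l m) i : ℤ) * F.B l m i') =
      if i = i' then (F.h k i - F.h l i) * (F.rho ρ i' : ℤ) else 0 := by
    intro i'
    rw [← Finset.mul_sum, F.AB]
    split_ifs
    · rw [mul_one]
    · rw [mul_zero]
  rw [Finset.sum_congr rfl (fun i' _ => h2 i')]
  simp

private lemma sep_id (k l : Fin K) (z : Fin n → ℂ) (h : F.Adm l (F.xi k z)) :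
    (∏ m, F.coord l (F.xi k z) m ^ (F.sepE k l m).toNat) *
      ∏ j, z j ^ (F.sepD k l j).toNat = 1 := by
  classical
  obtain ⟨ξ, hξ⟩ : ∃ ξ, ξ = F.xi k z := ⟨_, rfl⟩
  obtain ⟨S, hS⟩ : ∃ S, S = Finset.univ.filter (fun ρ : Fin r => ∀ j, F.cone l j ≠ ρ) := ⟨_, rfl⟩
  have hSmem : ∀ ρ, ρ ∈ S ↔ ∀ j, F.cone l j ≠ ρ := by
    intro ρ; rw [hS]; simp
  have hS0 : ∀ ρ ∈ S, ξ ρ ≠ 0 := by
    intro ρ hρ
    rw [hξ]
    exact h ρ ((hSmem ρ).1 hρ)
  have hcoord : ∀ m, F.coord l ξ m = ξ (F.cone l m) *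
      ∏ ρ ∈ S, ξ ρ ^ (∑ i, F.B l m i * (F.rho ρ i : ℤ)) := by
    intro m
    unfold coord
    refine congrArg (fun t => ξ (F.cone l m) * t) ?_
    refine Finset.prod_congr ?_ (fun _ _ => rfl)
    ext ρ
    rw [hSmem]
    simp
  rw [← hξ]
  have hterm : ∀ m, F.coord l ξ m ^ (F.sepE k l m).toNat =
      ∏ ρ ∈ S, ξ ρ ^ ((∑ i, F.B l m i * (F.rho ρ i : ℤ)) * F.sepE k l m) := by
    intro m
    rw [hcoord, mul_pow, ← Finset.prod_pow]
    have h1 : ξ (F.cone l m) ^ (F.sepE k l m).toNat = 1 := by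
      by_cases hc : ∃ j, F.cone k j = F.cone l m
      · obtain ⟨j, hj⟩ := hc
        rw [F.sepE_shared k l m j hj]
        simp
      · push Not at hc
        rw [hξ, F.xi_other k z _ hc, one_pow]
    rw [h1, one_mul]
    apply Finset.prod_congr rfl
    intro ρ _
    have h2 : ((F.sepE k l m).toNat : ℤ) = F.sepE k l m := Int.toNat_of_nonneg (F.sepE_nonneg k l m)
    rw [← zpow_natCast, h2, ← zpow_mul]
  rw [Finset.prod_congr rfl (fun m _ => hterm m), Finset.prod_comm]
  have hprod : ∀ ρ ∈ S, ∏ m, ξ ρ ^ ((∑ i, F.B l m i * (F.rho ρ i : ℤ)) * F.sepE k l m) =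
      ξ ρ ^ (∑ i, (F.h k i - F.h l i) * (F.rho ρ i : ℤ)) := by
    intro ρ hρ
    rw [← F.sep_exp k l ρ]
    have hne := hS0 ρ hρ
    have key : ∀ (T : Finset (Fin n)) (f : Fin n → ℤ), ∏ m ∈ T, ξ ρ ^ f m = ξ ρ ^ ∑ m ∈ T, f m := by
      intro T f
      induction T using Finset.induction_on with
      | empty => simp
      | insert a T ha ih => rw [Finset.prod_insert ha, Finset.sum_insert ha, ih, zpow_add₀ hne]
    exact key _ _
  rw [Finset.prod_congr rfl hprod]
  -- restriction to the rays of the cone k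
  obtain ⟨T, hT⟩ : ∃ T, T = Finset.univ.filter (fun j : Fin n => F.cone k j ∈ S) := ⟨_, rfl⟩
  have himg : T.image (F.cone k) ⊆ S := by
    intro ρ hρ
    rw [Finset.mem_image] at hρ
    obtain ⟨j, hj, rfl⟩ := hρ
    rw [hT, Finset.mem_filter] at hj
    exact hj.2
  rw [← Finset.prod_subset himg]
  · rw [Finset.prod_image (fun a _ b _ hab => F.inj k a b hab)]
    have hrest : ∏ j, z j ^ (F.sepD k l j).toNat = ∏ j ∈ T, z j ^ (F.sepD k l j).toNat := by
      symm
      apply Finset.prod_subset (Finset.subset_univ _)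
      intro j _ hj
      have hj' : ¬ ∀ m, F.cone l m ≠ F.cone k j := by
        intro hc
        apply hj
        rw [hT, Finset.mem_filter, hSmem]
        exact ⟨Finset.mem_univ _, hc⟩
      push Not at hj'
      obtain ⟨m, hm⟩ := hj'
      rw [F.sepD_shared k l m j hm]
      simp
    rw [hrest, ← Finset.prod_mul_distrib]
    apply Finset.prod_eq_one
    intro j hj
    rw [hT, Finset.mem_filter] at hj
    have hz : ξ (F.cone k j) = z j := by rw [hξ, F.xi_cone]
    have hz0 : z j ≠ 0 := by rw [← hz]; exact hS0 _ hj.2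
    have hd : ((F.sepD k l j).toNat : ℤ) = F.sepD k l j := Int.toNat_of_nonneg (F.sepD_nonneg k l j)
    have he : (∑ i, (F.h k i - F.h l i) * (F.rho (F.cone k j) i : ℤ)) = -F.sepD k l j := by
      unfold sepD
      rw [← Finset.sum_neg_distrib]
      apply Finset.sum_congr rfl
      intro i _
      ring
    rw [hz, he, ← zpow_natCast, hd, ← zpow_add₀ hz0]
    simp
  · intro ρ hρ hnot
    have hc : ∀ j, F.cone k j ≠ ρ := by
      intro j hj
      apply hnot
      rw [Finset.mem_image]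
      refine ⟨j, ?_, hj⟩
      rw [hT, Finset.mem_filter, hj]
      exact ⟨Finset.mem_univ _, hρ⟩
    rw [hξ, F.xi_other k z _ hc, one_zpow]

theorem sep_identity (k l : Fin K) (z : Fin n → ℂ) (h : F.Adm l (F.xi k z)) :
    ∃ e d : Fin n → ℕ, (∀ m, (e m : ℤ) = ∑ i, (F.h k i - F.h l i) * (F.rho (F.cone l m) i : ℤ)) ∧
      (∀ j, (d j : ℤ) = ∑ i, (F.h l i - F.h k i) * (F.rho (F.cone k j) i : ℤ)) ∧
      (∏ m, F.coord l (F.xi k z) m ^ e m) * ∏ j, z j ^ d j = 1 :=
  ⟨fun m => (F.sepE k l m).toNat, fun j => (F.sepD k l j).toNat,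
    fun m => Int.toNat_of_nonneg (F.sepE_nonneg k l m),
    fun j => Int.toNat_of_nonneg (F.sepD_nonneg k l j), F.sep_id k l z h⟩

private lemma xi_continuous (k : Fin K) (ρ : Fin r) : Continuous (fun z => F.xi k z ρ) := by
  by_cases h : ∃ j, F.cone k j = ρ
  · obtain ⟨j, rfl⟩ := h
    have : (fun z => F.xi k z (F.cone k j)) = fun z => z j := by
      funext z; exact F.xi_cone k z j
    rw [this]
    exact continuous_apply j
  · push Not at h
    have : (fun z => F.xi k z ρ) = fun _ => 1 := by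
      funext z; exact F.xi_other k z ρ h
    rw [this]
    exact continuous_const

private lemma coord_continuousAt (k l : Fin K) (z : Fin n → ℂ) (h : F.Adm l (F.xi k z)) :
    ContinuousAt (fun z => F.coord l (F.xi k z)) z := by
  classical
  rw [continuousAt_pi]
  intro m
  unfold coord
  apply ContinuousAt.mul
  · exact (F.xi_continuous k _).continuousAt
  · apply tendsto_finsetProd
    intro ρ hρ
    rw [Finset.mem_filter] at hρ
    exact ((F.xi_continuous k ρ).continuousAt (x := z)).zpow₀ _ (Or.inl (h ρ hρ.2))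

private lemma psi_continuousAt_inf (k l : Fin K) (z₀ : Fin n → ℂ) (h : ¬ F.Adm l (F.xi k z₀)) :
    Filter.Tendsto (fun z => F.Psi l (F.xi k z)) (nhds z₀) (nhds OnePoint.infty) := by
  classical
  -- the coordinate which vanishes
  unfold Adm at h
  push Not at h
  obtain ⟨ρ, hρ, hρ0⟩ := h
  have hk : ∃ j, F.cone k j = ρ := by
    by_contra hc
    push Not at hc
    rw [F.xi_other k z₀ ρ hc] at hρ0
    exact one_ne_zero hρ0
  obtain ⟨j₀, rfl⟩ := hk
  rw [F.xi_cone] at hρ0
  have hd : (F.sepD k l j₀).toNat ≠ 0 := by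
    have h1 := F.sep_lt k l j₀ hρ
    have h2 : 0 < F.sepD k l j₀ := by
      unfold sepD
      simp only [sub_mul, Finset.sum_sub_distrib]
      linarith only [h1]
    omega
  rw [OnePoint.hasBasis_nhds_infty.tendsto_right_iff]
  rintro C ⟨hC, hCc⟩
  obtain ⟨R, hR⟩ := hCc.isBounded.exists_norm_le
  have hR1 : ∀ w ∈ C, ∀ m, ‖w m‖ ≤ max R 1 := by
    intro w hw m
    exact (norm_le_pi_norm w m).trans ((hR w hw).trans (le_max_left _ _))
  obtain ⟨M, hM⟩ : ∃ M : ℝ, M = ∏ m, (max R 1) ^ (F.sepE k l m).toNat := ⟨_, rfl⟩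
  have hcont : Continuous (fun z : Fin n → ℂ => M * ∏ j, ‖z j‖ ^ (F.sepD k l j).toNat) := by
    apply continuous_const.mul
    apply continuous_finsetProd
    intro j _
    exact ((continuous_apply j).norm).pow _
  have h0 : M * ∏ j, ‖z₀ j‖ ^ (F.sepD k l j).toNat = 0 := by
    rw [Finset.prod_eq_zero (Finset.mem_univ j₀), mul_zero]
    rw [hρ0, norm_zero, zero_pow hd]
  have hev : ∀ᶠ z in nhds z₀, M * ∏ j, ‖z j‖ ^ (F.sepD k l j).toNat < 1 := by
    apply (hcont.tendsto z₀).eventually_lt_const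
    rw [h0]; exact one_pos
  filter_upwards [hev] with z hz
  by_cases hadm : F.Adm l (F.xi k z)
  · have hpsi : F.Psi l (F.xi k z) = ((F.coord l (F.xi k z) : Fin n → ℂ) : OnePoint _) := by
      unfold Psi
      rw [if_pos hadm]
    rw [hpsi]
    left
    refine ⟨_, ?_, rfl⟩
    intro hmem
    have h1 := congrArg norm (F.sep_id k l z hadm)
    rw [norm_mul, norm_prod, norm_prod, norm_one] at h1
    simp only [norm_pow] at h1
    have h2 : ∏ m, ‖F.coord l (F.xi k z) m‖ ^ (F.sepE k l m).toNat ≤ M := by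
      rw [hM]
      apply Finset.prod_le_prod
      · intro m _; positivity
      · intro m _
        exact pow_le_pow_left₀ (norm_nonneg _) (hR1 _ hmem m) _
    have h3 : 0 ≤ ∏ j, ‖z j‖ ^ (F.sepD k l j).toNat := by
      apply Finset.prod_nonneg
      intro j _; positivity
    have h4 := mul_le_mul_of_nonneg_right h2 h3
    rw [h1] at h4
    exact absurd hz (not_lt.2 h4)
  · have hpsi : F.Psi l (F.xi k z) = OnePoint.infty := by
      unfold Psi
      rw [if_neg hadm]
    rw [hpsi]
    right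
    rfl

theorem continuous_chart0 (k : Fin K) : Continuous (F.chart0 k) := by
  classical
  apply continuous_pi
  intro l
  rw [continuous_iff_continuousAt]
  intro z₀
  unfold chart0
  by_cases h : F.Adm l (F.xi k z₀)
  · have hopen : ∀ᶠ z in nhds z₀, F.Adm l (F.xi k z) := by
      unfold Adm
      rw [Filter.eventually_all]
      intro ρ
      by_cases hρ : ∀ j, F.cone l j ≠ ρ
      · have h1 := (F.xi_continuous k ρ).continuousAt (x := z₀)
        filter_upwards [h1.eventually_ne (h ρ hρ)] with z hz _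
        exact hz
      · exact Filter.Eventually.of_forall (fun z h' => absurd h' hρ)
    have h2 : ContinuousAt
        (fun z => ((F.coord l (F.xi k z) : Fin n → ℂ) : OnePoint (Fin n → ℂ))) z₀ :=
      OnePoint.continuous_coe.continuousAt.comp (F.coord_continuousAt k l z₀ h)
    refine h2.congr ?_
    filter_upwards [hopen] with z hz
    unfold Psi
    rw [if_pos hz]
  · have h3 : F.Psi l (F.xi k z₀) = OnePoint.infty := by
      unfold Psi
      rw [if_neg h]
    have h4 := F.psi_continuousAt_inf k l z₀ h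
    rw [← h3] at h4
    exact h4

end FanData
end Pool.Agent.HZ
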