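import Pool.Agent.Lib.MP_3c7f5c_ag.Res.Cox2
import Pool.Agent.Lib.MP_3c7f5c_ag.Res.Sep

/-!
# HZ-Top: the topology of the toric variety
-/

set_option autoImplicit false

open Set

namespace Pool.Agent.HZ

namespace FanData
variable {n r K : ℕ} (F : FanData n r K)

instance t2Y : T2Space F.Y :=
  inferInstanceAs (T2Space (Set.range (fun p : Fin K × (Fin n → ℂ) => F.chart0 p.1 p.2)))

theorem chart_continuous (k : Fin K) : Continuous (F.chart k) :=
  Continuous.subtype_mk (F.continuous_chart0 k) _

private theorem continuous_comp (k : Fin K) : Continuous fun y : F.Y => y.1 k :=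
  (continuous_apply k).comp continuous_subtype_val

private theorem comp_chart (k l : Fin K) (z : Fin n → ℂ) :
    (F.chart k z).1 l = F.Psi l (F.xi k z) := rfl

private theorem comp_chart_self (k : Fin K) (z : Fin n → ℂ) :
    (F.chart k z).1 k = ((z : Fin n → ℂ) : OnePoint (Fin n → ℂ)) := by
  rw [comp_chart, Psi, if_pos (F.adm_xi k z), F.coord_xi]

private theorem range_chart (k : Fin K) :
    Set.range (F.chart k) = (fun y : F.Y => y.1 k) ⁻¹' {(OnePoint.infty : OnePoint (Fin n → ℂ))}ᶜ := by
  ext y
  constructor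
  · rintro ⟨z, rfl⟩
    show (F.chart k z).1 k ≠ OnePoint.infty
    rw [comp_chart_self]
    exact OnePoint.coe_ne_infty _
  · intro hy
    obtain ⟨l, z, rfl⟩ := F.chart_cover y
    have h1 : F.Psi k (F.xi l z) ≠ OnePoint.infty := hy
    rw [F.chart_mem_range]
    by_contra h2
    exact h1 (by rw [Psi, if_neg h2])

theorem chart_openEmbedding (k : Fin K) : Topology.IsOpenEmbedding (F.chart k) := by
  refine ⟨?_, ?_⟩
  · refine Topology.IsEmbedding.of_comp (F.chart_continuous k) (F.continuous_comp k) ?_
    have h1 : (fun y : F.Y => y.1 k) ∘ F.chart k =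
        ((↑) : (Fin n → ℂ) → OnePoint (Fin n → ℂ)) := by
      funext z
      exact F.comp_chart_self k z
    rw [h1]
    exact OnePoint.isOpenEmbedding_coe.isEmbedding
  · rw [range_chart]
    exact isOpen_compl_singleton.preimage (F.continuous_comp k)

theorem mu_continuous : Continuous F.mu := by
  rw [continuous_iff_continuousAt]
  intro y
  obtain ⟨k, z, rfl⟩ := F.chart_cover y
  rw [← (F.chart_openEmbedding k).continuousAt_iff]
  have h1 : F.mu ∘ F.chart k = fun z i => MvPolynomial.eval z (F.muPoly k i) := by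
    funext z i
    exact F.mu_chart_poly k z i
  rw [h1]
  exact (continuous_pi fun i => MvPolynomial.continuous_eval _).continuousAt

theorem closed_of_charts (E : Set F.Y) (h : ∀ k, IsClosed (F.chart k ⁻¹' E)) : IsClosed E := by
  rw [← isOpen_compl_iff, isOpen_iff_mem_nhds]
  intro y hy
  obtain ⟨k, z, rfl⟩ := F.chart_cover y
  have h1 : IsOpen (F.chart k '' (F.chart k ⁻¹' E)ᶜ) :=
    (F.chart_openEmbedding k).isOpenMap _ (h k).isOpen_compl
  refine Filter.mem_of_superset (h1.mem_nhds ⟨z, hy, rfl⟩) ?_
  rintro _ ⟨z', hz', rfl⟩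
  exact hz'

end FanData

end Pool.Agent.HZ
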