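import Pool.Agent.Lib.MP_3c7f5c_ag.DivDefs
import Pool.Agent.Lib.MP_3c7f5c_ag.Res.Cox2
import Pool.Agent.Lib.MP_3c7f5c_ag.Res.Top

/-!
# Toric log resolution, module HZ-Div1: the divisors
-/

open Set

namespace Pool.Agent.HZ

theorem Pcox_scale (s : Fin 9) (g : Fin 11 → ℂ) (hg : ∀ ρ, g ρ ≠ 0)
    (hg1 : ∀ i, ∏ ρ, g ρ ^ HF.rho ρ i = 1) : ∃ u : ℂ, u ≠ 0 ∧ ∀ ξ : Fin 11 → ℂ,
      MvPolynomial.eval (fun ρ => g ρ * ξ ρ) (Pcox s) = u * MvPolynomial.eval ξ (Pcox s) := by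
  have key : ∀ i, ∏ ρ, g ρ ^ rhoD ρ i = 1 := hg1
  have h0 : g 0 * g 5 * g 6 * g 8 ^ 2 * g 10 = 1 := by
    have := key 0
    simp only [Fin.prod_univ_succ, Fin.prod_univ_zero, rhoD] at this
    simp at this
    rw [← this]
    ring
  have h1 : g 1 * g 5 * g 6 * g 8 = 1 := by
    have := key 1
    simp only [Fin.prod_univ_succ, Fin.prod_univ_zero, rhoD] at this
    simp at this
    rw [← this]
    ring
  have h2 : g 2 * g 5 * g 6 * g 7 * g 8 * g 9 * g 10 = 1 := by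
    have := key 2
    simp only [Fin.prod_univ_succ, Fin.prod_univ_zero, rhoD] at this
    simp at this
    rw [← this]
    ring
  have h3 : g 3 * g 5 * g 7 * g 9 ^ 2 * g 10 = 1 := by
    have := key 3
    simp only [Fin.prod_univ_succ, Fin.prod_univ_zero, rhoD] at this
    simp at this
    rw [← this]
    ring
  have h4 : g 4 * g 5 * g 7 * g 9 = 1 := by
    have := key 4
    simp only [Fin.prod_univ_succ, Fin.prod_univ_zero, rhoD] at this
    simp at this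
    rw [← this]
    ring
  have e6 : g 1 ^ 2 * g 5 * g 6 = g 0 * g 10 := by
    have hD : g 5 * g 6 * g 8 ^ 2 ≠ 0 :=
      mul_ne_zero (mul_ne_zero (hg 5) (hg 6)) (pow_ne_zero 2 (hg 8))
    refine mul_right_cancel₀ hD ?_
    linear_combination (g 1 * g 5 * g 6 * g 8 + 1) * h1 - h0
  have e7 : g 4 ^ 2 * g 5 * g 7 = g 3 * g 10 := by
    have hD : g 5 * g 7 * g 9 ^ 2 ≠ 0 :=
      mul_ne_zero (mul_ne_zero (hg 5) (hg 7)) (pow_ne_zero 2 (hg 9))
    refine mul_right_cancel₀ hD ?_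
    linear_combination (g 4 * g 5 * g 7 * g 9 + 1) * h4 - h3
  have e8 : g 2 ^ 2 * g 6 * g 7 = g 0 * g 3 := by
    have hD : g 5 ^ 2 * g 6 * g 7 * g 8 ^ 2 * g 9 ^ 2 * g 10 ^ 2 ≠ 0 :=
      mul_ne_zero (mul_ne_zero (mul_ne_zero (mul_ne_zero (mul_ne_zero (pow_ne_zero 2 (hg 5))
        (hg 6)) (hg 7)) (pow_ne_zero 2 (hg 8))) (pow_ne_zero 2 (hg 9))) (pow_ne_zero 2 (hg 10))
    refine mul_right_cancel₀ hD ?_
    linear_combination (g 2 * g 5 * g 6 * g 7 * g 8 * g 9 * g 10 + 1) * h2 -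
      (g 0 * g 5 * g 6 * g 8 ^ 2 * g 10) * h3 - h0
  fin_cases s
  · exact ⟨g 5, hg 5, fun ξ => by simp [Pcox]⟩
  · exact ⟨g 6, hg 6, fun ξ => by simp [Pcox]⟩
  · exact ⟨g 7, hg 7, fun ξ => by simp [Pcox]⟩
  · exact ⟨g 8, hg 8, fun ξ => by simp [Pcox]⟩
  · exact ⟨g 9, hg 9, fun ξ => by simp [Pcox]⟩
  · exact ⟨g 10, hg 10, fun ξ => by simp [Pcox]⟩
  · refine ⟨g 0 * g 10, mul_ne_zero (hg 0) (hg 10), fun ξ => ?_⟩
    simp [Pcox]
    linear_combination (-(ξ 1 ^ 2 * ξ 5 * ξ 6)) * e6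
  · refine ⟨g 3 * g 10, mul_ne_zero (hg 3) (hg 10), fun ξ => ?_⟩
    simp [Pcox]
    linear_combination (-(ξ 4 ^ 2 * ξ 5 * ξ 7)) * e7
  · refine ⟨g 0 * g 3, mul_ne_zero (hg 0) (hg 3), fun ξ => ?_⟩
    simp [Pcox]
    linear_combination (ξ 2 ^ 2 * ξ 6 * ξ 7) * e8

theorem eval_eqnD (k : Fin 25) (s : Fin 9) (z : Fin 5 → ℂ) :
    MvPolynomial.eval z (eqnD k s) = MvPolynomial.eval (HF.xi k z) (Pcox s) := by
  unfold eqnD
  generalize Pcox s = P
  induction P using MvPolynomial.induction_on with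
  | C a =>
    rw [MvPolynomial.aeval_C, MvPolynomial.eval_C]
    exact MvPolynomial.eval_C a
  | add p q hp hq => rw [map_add, map_add, map_add, hp, hq]
  | mul_X p n hp =>
    rw [map_mul, map_mul, map_mul, hp, MvPolynomial.aeval_X, MvPolynomial.eval_X,
      HF.eval_xiPoly]

theorem chart_mem_EDiv (k : Fin 25) (s : Fin 9) (z : Fin 5 → ℂ) :
    HF.chart k z ∈ EDiv s ↔ MvPolynomial.eval z (eqnD k s) = 0 := by
  rw [eval_eqnD]
  constructor
  · rintro ⟨k', z', h, h0⟩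
    obtain ⟨g, hg, hg1, hg2⟩ := HF.chart_eq_scale k' k z' z h
    obtain ⟨u, _, hu⟩ := Pcox_scale s g hg hg1
    have e : HF.xi k z = fun ρ => g ρ * HF.xi k' z' ρ := funext hg2
    rw [e, hu, h0, mul_zero]
  · intro h
    exact ⟨k, z, rfl, h⟩

theorem EDiv_closed (s : Fin 9) : IsClosed (EDiv s) := by
  refine HF.closed_of_charts _ fun k => ?_
  have e : HF.chart k ⁻¹' EDiv s = {z | MvPolynomial.eval z (eqnD k s) = 0} := by
    ext z
    exact chart_mem_EDiv k s z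
  rw [e]
  exact isClosed_eq (MvPolynomial.continuous_eval _) continuous_const

end Pool.Agent.HZ
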