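import Pool.Agent.Lib.MP_3c7f5c_ag.Res.Cox2

/-!
# The cones cover the orthant; torus points of the toric resolution
-/

open Set

namespace Pool.Agent.HZ

namespace FanData

variable {n r K : ℕ} (F : FanData n r K)

theorem cone_cover (ℓ : Fin n → ℝ) (h : ∀ i, 0 ≤ ℓ i) :
    ∃ k, ∀ j, 0 ≤ ∑ i, (F.B k j i : ℝ) * ℓ i := by
  have : Nonempty (Fin K) := ⟨⟨0, F.Kpos⟩⟩
  obtain ⟨k, hk⟩ := Finite.exists_min (fun k : Fin K => ∑ i, (F.h k i : ℝ) * ℓ i)
  refine ⟨k, fun j => ?_⟩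
  rcases F.facet k j with hB | ⟨l, c, hc, hl⟩
  · exact Finset.sum_nonneg fun i _ => mul_nonneg (by exact_mod_cast hB i) (h i)
  · have h1 := hk l
    have h2 : (c : ℝ) * ∑ i, (F.B k j i : ℝ) * ℓ i
        = ∑ i, (F.h l i : ℝ) * ℓ i - ∑ i, (F.h k i : ℝ) * ℓ i := by
      rw [Finset.mul_sum, ← Finset.sum_sub_distrib]
      refine Finset.sum_congr rfl fun i _ => ?_
      have h3 : ((F.h l i : ℝ) - F.h k i) = c * F.B k j i := by exact_mod_cast hl i
      rw [← sub_mul, h3]; ring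
    have h4 : 0 ≤ (c : ℝ) * ∑ i, (F.B k j i : ℝ) * ℓ i := by
      rw [h2]; linarith
    exact nonneg_of_mul_nonneg_right h4 (by exact_mod_cast hc)

/-- product of integer powers of a nonzero number -/
theorem cov_prod_zpow {ι : Type*} (s : Finset ι) (x : ℂ) (hx : x ≠ 0) (f : ι → ℤ) :
    ∏ j ∈ s, x ^ f j = x ^ ∑ j ∈ s, f j := by
  classical
  induction s using Finset.induction_on with
  | empty => simp
  | insert a s ha ih => rw [Finset.prod_insert ha, Finset.sum_insert ha, ih, zpow_add₀ hx]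

theorem cov_muC_xi (k : Fin K) (z : Fin n → ℂ) (i : Fin n) :
    F.muC (F.xi k z) i = ∏ j, z j ^ F.rho (F.cone k j) i := by
  classical
  change ∏ ρ, F.xi k z ρ ^ F.rho ρ i = _
  rw [← Finset.prod_subset (Finset.subset_univ (Finset.univ.image (F.cone k)))]
  · rw [Finset.prod_image (fun a _ b _ hab => F.inj k a b hab)]
    exact Finset.prod_congr rfl fun j _ => by rw [F.xi_cone]
  · intro ρ _ hρ
    rw [F.xi_other k z ρ (fun j hj => hρ (Finset.mem_image.2 ⟨j, Finset.mem_univ _, hj⟩)), one_pow]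

/-- coordinates in the chart `k` of the torus point over `x` -/
noncomputable def covz (k : Fin K) (x : Fin n → ℂ) (j : Fin n) : ℂ := ∏ i, x i ^ F.B k j i

theorem covz_ne (k : Fin K) (x : Fin n → ℂ) (hx : ∀ i, x i ≠ 0) (j : Fin n) :
    F.covz k x j ≠ 0 :=
  Finset.prod_ne_zero_iff.2 fun i _ => zpow_ne_zero _ (hx i)

theorem muC_covz (k : Fin K) (x : Fin n → ℂ) (hx : ∀ i, x i ≠ 0) :
    F.muC (F.xi k (F.covz k x)) = x := by
  classical
  funext i
  rw [F.cov_muC_xi]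
  have h1 : ∀ j, F.covz k x j ^ F.rho (F.cone k j) i
      = ∏ i', x i' ^ ((F.rho (F.cone k j) i : ℤ) * F.B k j i') := by
    intro j
    rw [covz, ← Finset.prod_pow]
    refine Finset.prod_congr rfl fun i' _ => ?_
    rw [← zpow_natCast, ← zpow_mul, mul_comm]
  rw [Finset.prod_congr rfl (fun j _ => h1 j), Finset.prod_comm]
  have h2 : ∀ i', ∏ j, x i' ^ ((F.rho (F.cone k j) i : ℤ) * F.B k j i')
      = x i' ^ (if i = i' then (1 : ℤ) else 0) := by
    intro i'
    rw [cov_prod_zpow _ _ (hx i'), F.AB]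
  rw [Finset.prod_congr rfl (fun i' _ => h2 i'), Finset.prod_eq_single i]
  · simp
  · intro i' _ hi'
    rw [if_neg (fun h => hi' h.symm), zpow_zero]
  · intro h; exact absurd (Finset.mem_univ _) h

theorem torus_exists (x : Fin n → ℂ) (hx : ∀ i, x i ≠ 0) (k : Fin K) :
    ∃ z : Fin n → ℂ, (∀ j, z j ≠ 0) ∧ F.muC (F.xi k z) = x :=
  ⟨F.covz k x, F.covz_ne k x hx, F.muC_covz k x hx⟩

/-- torus points over a bounded region have bounded coordinates in some chart -/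
theorem torus_bounded (R : ℝ) (hR : 1 ≤ R) : ∃ C : ℝ, ∀ x : Fin n → ℂ, (∀ i, x i ≠ 0) →
    (∀ i, ‖x i‖ < R) → ∃ k, ∃ z : Fin n → ℂ, (∀ j, z j ≠ 0) ∧ (∀ j, ‖z j‖ ≤ C) ∧
      F.muC (F.xi k z) = x := by
  classical
  refine ⟨∑ k : Fin K, ∑ j : Fin n, Real.exp (Real.log R * ∑ i, |(F.B k j i : ℝ)|), ?_⟩
  intro x hx hxR
  have hlR : 0 ≤ Real.log R := Real.log_nonneg hR
  obtain ⟨k, hk⟩ := F.cone_cover (fun i => Real.log R - Real.log ‖x i‖) (fun i =>
    sub_nonneg.2 (Real.log_le_log (norm_pos_iff.2 (hx i)) (hxR i).le))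
  refine ⟨k, F.covz k x, F.covz_ne k x hx, fun j => ?_, F.muC_covz k x hx⟩
  have h1 : ‖F.covz k x j‖ = Real.exp (∑ i, (F.B k j i : ℝ) * Real.log ‖x i‖) := by
    rw [covz, norm_prod, Real.exp_sum]
    refine Finset.prod_congr rfl fun i _ => ?_
    rw [norm_zpow, mul_comm, Real.exp_mul, Real.exp_log (norm_pos_iff.2 (hx i)),
      Real.rpow_intCast]
  have h2 : ∑ i, (F.B k j i : ℝ) * Real.log ‖x i‖ ≤ Real.log R * ∑ i, |(F.B k j i : ℝ)| := by
    have h3 := hk j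
    have h4 : ∑ i, (F.B k j i : ℝ) * (Real.log R - Real.log ‖x i‖)
        = Real.log R * ∑ i, (F.B k j i : ℝ) - ∑ i, (F.B k j i : ℝ) * Real.log ‖x i‖ := by
      rw [Finset.mul_sum, ← Finset.sum_sub_distrib]
      exact Finset.sum_congr rfl fun i _ => by ring
    rw [h4] at h3
    have h5 : ∑ i, (F.B k j i : ℝ) ≤ ∑ i, |(F.B k j i : ℝ)| :=
      Finset.sum_le_sum fun i _ => le_abs_self _
    have h6 := mul_le_mul_of_nonneg_left h5 hlR
    linarith
  rw [h1]
  refine (Real.exp_le_exp.2 h2).trans ?_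
  refine le_trans ?_ (Finset.single_le_sum (f := fun k : Fin K => ∑ j : Fin n,
    Real.exp (Real.log R * ∑ i, |(F.B k j i : ℝ)|))
    (fun k _ => Finset.sum_nonneg fun j _ => (Real.exp_pos _).le) (Finset.mem_univ k))
  exact Finset.single_le_sum (f := fun j : Fin n =>
    Real.exp (Real.log R * ∑ i, |(F.B k j i : ℝ)|))
    (fun j _ => (Real.exp_pos _).le) (Finset.mem_univ j)

/-- chart coordinates of a torus point in terms of its image -/
theorem cov_coord (l : Fin K) (ξ : Fin r → ℂ) (hξ : ∀ ρ, ξ ρ ≠ 0) :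
    F.coord l ξ = F.covz l (F.muC ξ) := by
  classical
  funext m
  have h1 : F.covz l (F.muC ξ) m = ∏ ρ, ξ ρ ^ (∑ i, F.B l m i * (F.rho ρ i : ℤ)) := by
    rw [covz]
    have h2 : ∀ i, F.muC ξ i ^ F.B l m i = ∏ ρ, ξ ρ ^ (F.B l m i * (F.rho ρ i : ℤ)) := by
      intro i
      change (∏ ρ, ξ ρ ^ F.rho ρ i) ^ F.B l m i = _
      rw [← Finset.prod_zpow]
      refine Finset.prod_congr rfl fun ρ _ => ?_
      rw [← zpow_natCast, ← zpow_mul, mul_comm]
    rw [Finset.prod_congr rfl (fun i _ => h2 i), Finset.prod_comm]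
    exact Finset.prod_congr rfl fun ρ _ => cov_prod_zpow _ _ (hξ ρ) _
  rw [h1]
  rw [← Finset.prod_filter_mul_prod_filter_not Finset.univ (fun ρ => ∀ j, F.cone l j ≠ ρ)]
  rw [mul_comm, coord]
  congr 1
  · have h3 : Finset.univ.filter (fun ρ => ¬ ∀ j, F.cone l j ≠ ρ)
        = Finset.univ.image (F.cone l) := by
      ext ρ
      simp [Finset.mem_filter, Finset.mem_image]
    rw [h3, Finset.prod_image (fun a _ b _ hab => F.inj l a b hab)]
    rw [Finset.prod_congr rfl (fun j _ => by rw [F.BA l m j]), Finset.prod_eq_single m]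
    · simp
    · intro j _ hj
      rw [if_neg (fun h => hj h.symm), zpow_zero]
    · intro h; exact absurd (Finset.mem_univ _) h

theorem cov_ne_of_muC (k : Fin K) (z : Fin n → ℂ) (hx : ∀ i, F.muC (F.xi k z) i ≠ 0)
    (j : Fin n) : z j ≠ 0 := by
  classical
  have h1 : ∃ i, F.rho (F.cone k j) i ≠ 0 := by
    by_contra hcon
    push Not at hcon
    have h2 := F.BA k j j
    rw [if_pos rfl, Finset.sum_eq_zero (fun i _ => by rw [hcon i]; simp)] at h2
    exact zero_ne_one h2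
  obtain ⟨i, hi⟩ := h1
  have h3 := hx i
  rw [F.cov_muC_xi, Finset.prod_ne_zero_iff] at h3
  exact fun h0 => h3 j (Finset.mem_univ _) (by rw [h0, zero_pow hi])

theorem cov_xi_ne (k : Fin K) (z : Fin n → ℂ) (hz : ∀ j, z j ≠ 0) (ρ : Fin r) :
    F.xi k z ρ ≠ 0 := by
  by_cases h : ∃ j, F.cone k j = ρ
  · obtain ⟨j, rfl⟩ := h
    rw [F.xi_cone]; exact hz j
  · rw [F.xi_other k z ρ (fun j hj => h ⟨j, hj⟩)]; exact one_ne_zero

theorem torus_unique (k l : Fin K) (z z' : Fin n → ℂ)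
    (hx : ∀ i, F.muC (F.xi k z) i ≠ 0) (h : F.muC (F.xi k z) = F.muC (F.xi l z')) :
    F.chart k z = F.chart l z' := by
  have hz := F.cov_xi_ne k z (F.cov_ne_of_muC k z hx)
  have hz' := F.cov_xi_ne l z' (F.cov_ne_of_muC l z' (fun i => by rw [← h]; exact hx i))
  rw [F.chart_eq_iff]
  refine ⟨fun ρ _ => hz ρ, ?_⟩
  rw [F.cov_coord l _ hz, h, ← F.cov_coord l _ hz', F.coord_xi]

end FanData

end Pool.Agent.HZ
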