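import Pool.Agent.Lib.MP_3c7f5c_ag.DivDefs
import Pool.Agent.Lib.MP_3c7f5c_ag.Res.Top
import Pool.Agent.Lib.MP_3c7f5c_ag.Res.Cover

/-!
# HZ-Div2: the divisors are connected
-/

open Set

namespace Pool.Agent.HZ

private theorem eval_eqnD' (k : Fin 25) (s : Fin 9) (z : Fin 5 → ℂ) :
    MvPolynomial.eval z (eqnD k s) = MvPolynomial.eval (HF.xi k z) (Pcox s) := by
  unfold eqnD
  have h : (fun ρ => MvPolynomial.eval z (HF.xiPoly k ρ)) = HF.xi k z :=
    funext fun ρ => HF.eval_xiPoly k z ρ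
  rw [← h]
  generalize Pcox s = P
  induction P using MvPolynomial.induction_on with
  | C a => simp
  | add p q hp hq => rw [map_add, map_add, map_add, hp, hq]
  | mul_X p i hp => rw [map_mul, map_mul, map_mul, hp, MvPolynomial.aeval_X, MvPolynomial.eval_X]

/-- a monomial -/
private noncomputable def mo (a : Fin 5 → ℕ) (z : Fin 5 → ℂ) : ℂ := ∏ j, z j ^ a j

private theorem mo_continuous (a : Fin 5 → ℕ) : Continuous (mo a) := by
  unfold mo
  fun_prop

private theorem mo_update (a : Fin 5 → ℕ) (b : Fin 5) (hb : a b = 0) (z : Fin 5 → ℂ) (c : ℂ) :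
    mo a (Function.update z b c) = mo a z := by
  unfold mo
  refine Finset.prod_congr rfl fun j _ => ?_
  by_cases h : j = b
  · subst h
    rw [hb, pow_zero, pow_zero]
  · rw [Function.update_of_ne h]

private theorem paramA (a' : Fin 5 → ℕ) (b : Fin 5) (hb : a' b = 0) (ε : ℂ) :
    ∃ Φ : (Fin 5 → ℂ) → (Fin 5 → ℂ), Continuous Φ ∧ range Φ = {z | z b = ε * mo a' z} := by
  refine ⟨fun ζ => Function.update ζ b (ε * mo a' ζ),
    continuous_id.update b (continuous_const.mul (mo_continuous a')), ?_⟩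
  ext z
  constructor
  · rintro ⟨ζ, rfl⟩
    show Function.update ζ b (ε * mo a' ζ) b = ε * mo a' (Function.update ζ b (ε * mo a' ζ))
    rw [Function.update_self, mo_update a' b hb]
  · intro h
    have h' : z b = ε * mo a' z := h
    refine ⟨z, ?_⟩
    show Function.update z b (ε * mo a' z) = z
    rw [← h', Function.update_eq_self]

private theorem paramB (a : Fin 5 → ℕ) (b : Fin 5) (hb : a b = 1) (ε : ℂ) (hε : ε ≠ 0) :
    ∃ Φ : (Fin 5 → ℂ) → (Fin 5 → ℂ), Continuous Φ ∧ range Φ = {z | mo a z = ε} := by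
  classical
  refine ⟨fun ζ j => if j = b then
      ε * Complex.exp (-∑ i ∈ Finset.univ.erase b, (a i : ℂ) * ζ i)
    else if a j = 0 then ζ j else Complex.exp (ζ j), ?_, ?_⟩
  · refine continuous_pi fun j => ?_
    by_cases h1 : j = b
    · simp only [h1, if_true]
      fun_prop
    · by_cases h2 : a j = 0
      · simp only [h1, h2, if_true, if_false]
        fun_prop
      · simp only [h1, h2, if_false]
        fun_prop
  · ext z
    constructor
    · rintro ⟨ζ, rfl⟩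
      show mo a _ = ε
      unfold mo
      rw [← Finset.mul_prod_erase Finset.univ _ (Finset.mem_univ b)]
      rw [hb, pow_one]
      beta_reduce
      rw [if_pos rfl]
      have h1 : ∏ j ∈ Finset.univ.erase b, (if j = b then
            ε * Complex.exp (-∑ i ∈ Finset.univ.erase b, (a i : ℂ) * ζ i)
          else if a j = 0 then ζ j else Complex.exp (ζ j)) ^ a j
          = ∏ j ∈ Finset.univ.erase b, Complex.exp ((a j : ℂ) * ζ j) := by
        refine Finset.prod_congr rfl fun j hj => ?_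
        rw [if_neg (Finset.ne_of_mem_erase hj)]
        by_cases h2 : a j = 0
        · rw [h2]
          simp
        · rw [if_neg h2, ← Complex.exp_nat_mul]
      rw [h1, ← Complex.exp_sum, Complex.exp_neg]
      have h3 := Complex.exp_ne_zero (∑ i ∈ Finset.univ.erase b, (a i : ℂ) * ζ i)
      field_simp
    · intro h
      have h' : ∏ j, z j ^ a j = ε := h
      have hz : ∀ j, a j ≠ 0 → z j ≠ 0 := by
        intro j hj h0
        apply hε
        rw [← h']
        exact Finset.prod_eq_zero (Finset.mem_univ j) (by rw [h0, zero_pow hj])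
      refine ⟨fun j => if a j = 0 then z j else Complex.log (z j), ?_⟩
      funext j
      show (if j = b then
          ε * Complex.exp (-∑ i ∈ Finset.univ.erase b,
            (a i : ℂ) * (if a i = 0 then z i else Complex.log (z i)))
        else if a j = 0 then (if a j = 0 then z j else Complex.log (z j))
          else Complex.exp (if a j = 0 then z j else Complex.log (z j))) = z j
      by_cases h1 : j = b
      · rw [if_pos h1, h1]
        have h2 : Complex.exp (∑ i ∈ Finset.univ.erase b,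
            (a i : ℂ) * (if a i = 0 then z i else Complex.log (z i)))
            = ∏ i ∈ Finset.univ.erase b, z i ^ a i := by
          rw [Complex.exp_sum]
          refine Finset.prod_congr rfl fun i _ => ?_
          by_cases h3 : a i = 0
          · rw [h3]
            simp
          · rw [if_neg h3, Complex.exp_nat_mul, Complex.exp_log (hz i h3)]
        rw [Complex.exp_neg, h2, ← h', ← Finset.mul_prod_erase Finset.univ _ (Finset.mem_univ b),
          hb, pow_one]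
        have h4 : ∏ i ∈ Finset.univ.erase b, z i ^ a i ≠ 0 := by
          rw [← h2]
          exact Complex.exp_ne_zero _
        field_simp
      · rw [if_neg h1]
        by_cases h2 : a j = 0
        · rw [if_pos h2, if_pos h2]
        · rw [if_neg h2, if_neg h2, Complex.exp_log (hz j h2)]

private def al (p : Fin 5 → Bool) : Bool := p 0 && p 1 && p 2 && p 3 && p 4
private def an (p : Fin 5 → Bool) : Bool := p 0 || p 1 || p 2 || p 3 || p 4

private theorem al_true {p : Fin 5 → Bool} (h : al p = true) : ∀ j, p j = true := by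
  unfold al at h
  simp only [Bool.and_eq_true] at h
  obtain ⟨⟨⟨⟨h0, h1⟩, h2⟩, h3⟩, h4⟩ := h
  intro j
  fin_cases j
  exacts [h0, h1, h2, h3, h4]

private theorem an_true {p : Fin 5 → Bool} (h : an p = true) : ∃ j, p j = true := by
  unfold an at h
  simp only [Bool.or_eq_true] at h
  rcases h with (((h | h) | h) | h) | h
  exacts [⟨0, h⟩, ⟨1, h⟩, ⟨2, h⟩, ⟨3, h⟩, ⟨4, h⟩]

/-- the four cases for a binomial -/
private def cond (a a' : Fin 5 → ℕ) : Bool := an fun b =>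
  (al (fun j => a j == if j = b then 1 else 0) && a' b == 0) ||
  (al (fun j => a' j == if j = b then 1 else 0) && a b == 0) ||
  (al (fun j => a' j == 0) && a b == 1) || (al (fun j => a j == 0) && a' b == 1)

private theorem mo_single {a : Fin 5 → ℕ} {b : Fin 5} (h : ∀ j, a j = if j = b then 1 else 0)
    (z : Fin 5 → ℂ) : mo a z = z b := by
  unfold mo
  rw [Finset.prod_eq_single b]
  · rw [h b, if_pos rfl, pow_one]
  · intro j _ hj
    rw [h j, if_neg hj, pow_zero]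
  · intro hb
    exact absurd (Finset.mem_univ b) hb

private theorem mo_zero {a : Fin 5 → ℕ} (h : ∀ j, a j = 0) (z : Fin 5 → ℂ) : mo a z = 1 := by
  unfold mo
  refine Finset.prod_eq_one fun j _ => ?_
  rw [h j, pow_zero]

private theorem param_binom (a a' : Fin 5 → ℕ) (ε : ℂ) (hε : ε ≠ 0) (h : cond a a' = true) :
    ∃ Φ : (Fin 5 → ℂ) → (Fin 5 → ℂ), Continuous Φ ∧
      range Φ = {z | mo a z - ε * mo a' z = 0} := by
  obtain ⟨b, hb⟩ := an_true h
  simp only [Bool.or_eq_true, Bool.and_eq_true, beq_iff_eq] at hb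
  rcases hb with ((⟨h1, h2⟩ | ⟨h1, h2⟩) | ⟨h1, h2⟩) | ⟨h1, h2⟩
  · have h3 : ∀ j, a j = if j = b then 1 else 0 := fun j => by simpa using al_true h1 j
    obtain ⟨Φ, hΦ, hr⟩ := paramA a' b h2 ε
    refine ⟨Φ, hΦ, ?_⟩
    rw [hr]
    ext z
    show z b = ε * mo a' z ↔ mo a z - ε * mo a' z = 0
    rw [mo_single h3, sub_eq_zero]
  · have h3 : ∀ j, a' j = if j = b then 1 else 0 := fun j => by simpa using al_true h1 j
    obtain ⟨Φ, hΦ, hr⟩ := paramA a b h2 ε⁻¹
    refine ⟨Φ, hΦ, ?_⟩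
    rw [hr]
    ext z
    show z b = ε⁻¹ * mo a z ↔ mo a z - ε * mo a' z = 0
    rw [mo_single h3, sub_eq_zero]
    constructor
    · intro h4
      rw [h4, mul_inv_cancel_left₀ hε]
    · intro h4
      rw [h4, inv_mul_cancel_left₀ hε]
  · have h3 : ∀ j, a' j = 0 := fun j => by simpa using al_true h1 j
    obtain ⟨Φ, hΦ, hr⟩ := paramB a b h2 ε hε
    refine ⟨Φ, hΦ, ?_⟩
    rw [hr]
    ext z
    show mo a z = ε ↔ mo a z - ε * mo a' z = 0
    rw [mo_zero h3, mul_one, sub_eq_zero]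
  · have h3 : ∀ j, a j = 0 := fun j => by simpa using al_true h1 j
    obtain ⟨Φ, hΦ, hr⟩ := paramB a' b h2 ε⁻¹ (inv_ne_zero hε)
    refine ⟨Φ, hΦ, ?_⟩
    rw [hr]
    ext z
    show mo a' z = ε⁻¹ ↔ mo a z - ε * mo a' z = 0
    rw [mo_zero h3, sub_eq_zero]
    constructor
    · intro h4
      rw [h4, mul_inv_cancel₀ hε]
    · intro h4
      exact eq_inv_of_mul_eq_one_right h4.symm

private def pos : Fin 3 → Fin 11 → ℕ :=
  ![![1, 0, 0, 0, 0, 0, 0, 0, 0, 0, 1], ![0, 0, 0, 1, 0, 0, 0, 0, 0, 0, 1],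
    ![1, 0, 0, 1, 0, 0, 0, 0, 0, 0, 0]]
private def neg : Fin 3 → Fin 11 → ℕ :=
  ![![0, 2, 0, 0, 0, 1, 1, 0, 0, 0, 0], ![0, 0, 0, 0, 2, 1, 0, 1, 0, 0, 0],
    ![0, 0, 2, 0, 0, 0, 1, 1, 0, 0, 0]]

private theorem cond_data : ∀ (i : Fin 3) (k : Fin 25),
    cond (fun j => pos i (coneD k j)) (fun j => neg i (coneD k j)) = true := by
  decide +kernel

private theorem prod_xi (k : Fin 25) (z : Fin 5 → ℂ) (p : Fin 11 → ℕ) :
    ∏ ρ, HF.xi k z ρ ^ p ρ = mo (fun j => p (coneD k j)) z := by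
  classical
  have h1 : ∏ ρ ∈ Finset.univ.image (HF.cone k), HF.xi k z ρ ^ p ρ
      = ∏ ρ, HF.xi k z ρ ^ p ρ := by
    refine Finset.prod_subset (Finset.subset_univ _) fun ρ _ hρ => ?_
    rw [HF.xi_other k z ρ (fun j hj => hρ (Finset.mem_image.2 ⟨j, Finset.mem_univ j, hj⟩)),
      one_pow]
  rw [← h1, Finset.prod_image (fun j _ j' _ h => HF.inj k j j' h)]
  exact Finset.prod_congr rfl fun j _ => by rw [HF.xi_cone]; rfl

/-- the union of the images of the charts -/
private theorem conn_of (s : Fin 9) (y0 : HF.Y)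
    (h : ∀ k, (∀ z, MvPolynomial.eval z (eqnD k s) ≠ 0) ∨
      (∃ Φ : (Fin 5 → ℂ) → (Fin 5 → ℂ), Continuous Φ ∧
        range Φ = {z | MvPolynomial.eval z (eqnD k s) = 0} ∧ y0 ∈ range (HF.chart k ∘ Φ)))
    (hne : y0 ∈ EDiv s) : IsConnected (EDiv s) := by
  refine ⟨⟨y0, hne⟩, ?_⟩
  have heq : EDiv s = ⋃₀ {A : Set HF.Y | ∃ (k : Fin 25) (Φ : (Fin 5 → ℂ) → (Fin 5 → ℂ)),
      Continuous Φ ∧
      range Φ = {z | MvPolynomial.eval z (eqnD k s) = 0} ∧ y0 ∈ range (HF.chart k ∘ Φ) ∧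
      A = range (HF.chart k ∘ Φ)} := by
    ext y
    constructor
    · rintro ⟨k, z, rfl, hz⟩
      rw [← eval_eqnD'] at hz
      rcases h k with h1 | ⟨Φ, h1, h2, h3⟩
      · exact absurd hz (h1 z)
      · refine ⟨range (HF.chart k ∘ Φ), ⟨k, Φ, h1, h2, h3, rfl⟩, ?_⟩
        have h4 : z ∈ range Φ := by
          rw [h2]
          exact hz
        obtain ⟨ζ, rfl⟩ := h4
        exact ⟨ζ, rfl⟩
    · rintro ⟨A, ⟨k, Φ, -, h2, -, rfl⟩, ⟨ζ, rfl⟩⟩
      refine ⟨k, Φ ζ, rfl, ?_⟩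
      rw [← eval_eqnD']
      have h4 : Φ ζ ∈ range Φ := ⟨ζ, rfl⟩
      rw [h2] at h4
      exact h4
  rw [heq]
  refine isPreconnected_sUnion y0 _ ?_ ?_
  · rintro A ⟨k, Φ, -, -, h3, rfl⟩
    exact h3
  · rintro A ⟨k, Φ, h1, -, -, rfl⟩
    exact isPreconnected_range ((HF.chart_continuous k).comp h1)

private theorem conn_ray (s : Fin 9) (ρ0 : Fin 11) (hs : Pcox s = MvPolynomial.X ρ0)
    (hρ : ∃ k j, coneD k j = ρ0) : IsConnected (EDiv s) := by
  classical
  obtain ⟨k0, j0, hk0⟩ := hρ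
  -- the common point
  have hxi : ∀ k j, coneD k j = ρ0 → HF.xi k (Function.update (fun _ => 1) j 0)
      = fun ρ => if ρ = ρ0 then 0 else 1 := by
    intro k j hkj
    funext ρ
    by_cases h : ∃ j', HF.cone k j' = ρ
    · obtain ⟨j', rfl⟩ := h
      rw [HF.xi_cone]
      by_cases hj : j' = j
      · subst hj
        rw [Function.update_self, if_pos (show HF.cone k j' = ρ0 from hkj)]
      · rw [Function.update_of_ne hj, if_neg]
        intro hc
        exact hj (dataInj k _ _ (hc.trans hkj.symm))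
    · push Not at h
      rw [HF.xi_other k _ ρ h, if_neg]
      rintro rfl
      exact h j hkj
  have hchart : ∀ k j, coneD k j = ρ0 → HF.chart k (Function.update (fun _ => 1) j 0)
      = HF.chart k0 (Function.update (fun _ => 1) j0 0) := by
    intro k j hkj
    apply Subtype.ext
    show (fun l => HF.Psi l (HF.xi k (Function.update (fun _ => 1) j 0)))
      = fun l => HF.Psi l (HF.xi k0 (Function.update (fun _ => 1) j0 0))
    rw [hxi k j hkj, hxi k0 j0 hk0]
  have hev : ∀ k z, MvPolynomial.eval z (eqnD k s) = HF.xi k z ρ0 := by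
    intro k z
    rw [eval_eqnD', hs, MvPolynomial.eval_X]
  refine conn_of s (HF.chart k0 (Function.update (fun _ => 1) j0 0)) ?_ ?_
  · intro k
    by_cases h : ∃ j, coneD k j = ρ0
    · right
      obtain ⟨j, hj⟩ := h
      have hev' : ∀ z, MvPolynomial.eval z (eqnD k s) = z j := by
        intro z
        rw [hev, ← hj]
        exact HF.xi_cone k z j
      refine ⟨fun ζ => Function.update ζ j 0, continuous_id.update j continuous_const, ?_, ?_⟩
      · ext z
        constructor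
        · rintro ⟨ζ, rfl⟩
          show MvPolynomial.eval (Function.update ζ j 0) (eqnD k s) = 0
          rw [hev', Function.update_self]
        · intro hz
          have hz' : MvPolynomial.eval z (eqnD k s) = 0 := hz
          rw [hev'] at hz'
          refine ⟨z, ?_⟩
          show Function.update z j 0 = z
          rw [← hz', Function.update_eq_self]
      · exact ⟨fun _ => 1, hchart k j hj⟩
    · left
      push Not at h
      intro z
      rw [hev, HF.xi_other k z ρ0 h]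
      exact one_ne_zero
  · refine ⟨k0, _, rfl, ?_⟩
    rw [hs, MvPolynomial.eval_X, hxi k0 j0 hk0]
    simp

private theorem conn_binom (s : Fin 9) (i : Fin 3) (ε : ℂ) (hε : ε ≠ 0)
    (hs : ∀ ξ : Fin 11 → ℂ, MvPolynomial.eval ξ (Pcox s)
      = ∏ ρ, ξ ρ ^ pos i ρ - ε * ∏ ρ, ξ ρ ^ neg i ρ)
    (x0 : Fin 5 → ℂ) (hx0 : ∀ j, x0 j ≠ 0)
    (hxs : ∀ ξ : Fin 11 → ℂ, (∀ ρ, ξ ρ ≠ 0) → HF.muC ξ = x0 →
      MvPolynomial.eval ξ (Pcox s) = 0) : IsConnected (EDiv s) := by
  choose zz hz1 hz2 using fun k => HF.torus_exists x0 hx0 k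
  have hch : ∀ k, HF.chart k (zz k) = HF.chart 0 (zz 0) := by
    intro k
    refine HF.torus_unique k 0 _ _ (fun i => by rw [hz2 k]; exact hx0 i) ?_
    rw [hz2 k, hz2 0]
  have hmem : ∀ k, MvPolynomial.eval (zz k) (eqnD k s) = 0 := by
    intro k
    rw [eval_eqnD']
    exact hxs _ (fun ρ => HF.cov_xi_ne k (zz k) (hz1 k) ρ) (hz2 k)
  have hev : ∀ k z, MvPolynomial.eval z (eqnD k s)
      = mo (fun j => pos i (coneD k j)) z - ε * mo (fun j => neg i (coneD k j)) z := by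
    intro k z
    rw [eval_eqnD', hs, prod_xi, prod_xi]
  refine conn_of s (HF.chart 0 (zz 0)) ?_ ?_
  · intro k
    right
    obtain ⟨Φ, h1, h2⟩ := param_binom _ _ ε hε (cond_data i k)
    have h3 : range Φ = {z | MvPolynomial.eval z (eqnD k s) = 0} := by
      rw [h2]
      ext z
      show _ = 0 ↔ MvPolynomial.eval z (eqnD k s) = 0
      rw [hev]
    refine ⟨Φ, h1, h3, ?_⟩
    have h4 : zz k ∈ range Φ := by
      rw [h3]
      exact hmem k
    obtain ⟨ζ, hζ⟩ := h4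
    refine ⟨ζ, ?_⟩
    show HF.chart k (Φ ζ) = _
    rw [hζ, hch k]
  · refine ⟨0, zz 0, rfl, ?_⟩
    rw [← eval_eqnD']
    exact hmem 0

private theorem muC0 (ξ : Fin 11 → ℂ) : HF.muC ξ 0 = ξ 0 * ξ 5 * ξ 6 * ξ 8 ^ 2 * ξ 10 := by
  show ∏ ρ, ξ ρ ^ rhoD ρ 0 = _
  simp [Fin.prod_univ_succ, rhoD]
  ring

private theorem muC1 (ξ : Fin 11 → ℂ) : HF.muC ξ 1 = ξ 1 * ξ 5 * ξ 6 * ξ 8 := by
  show ∏ ρ, ξ ρ ^ rhoD ρ 1 = _
  simp [Fin.prod_univ_succ, rhoD]
  ring

private theorem muC2 (ξ : Fin 11 → ℂ) :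
    HF.muC ξ 2 = ξ 2 * ξ 5 * ξ 6 * ξ 7 * ξ 8 * ξ 9 * ξ 10 := by
  show ∏ ρ, ξ ρ ^ rhoD ρ 2 = _
  simp [Fin.prod_univ_succ, rhoD]
  ring

private theorem muC3 (ξ : Fin 11 → ℂ) : HF.muC ξ 3 = ξ 3 * ξ 5 * ξ 7 * ξ 9 ^ 2 * ξ 10 := by
  show ∏ ρ, ξ ρ ^ rhoD ρ 3 = _
  simp [Fin.prod_univ_succ, rhoD]
  ring

private theorem muC4 (ξ : Fin 11 → ℂ) : HF.muC ξ 4 = ξ 4 * ξ 5 * ξ 7 * ξ 9 := by
  show ∏ ρ, ξ ρ ^ rhoD ρ 4 = _
  simp [Fin.prod_univ_succ, rhoD]
  ring

private theorem conn6 : IsConnected (EDiv 6) := by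
  refine conn_binom 6 0 1 one_ne_zero ?_ (fun _ => 1) (fun _ => one_ne_zero) ?_
  · intro ξ
    have h : Pcox 6 = MvPolynomial.X 0 * MvPolynomial.X 10 -
      MvPolynomial.X 1 ^ 2 * MvPolynomial.X 5 * MvPolynomial.X 6 := rfl
    rw [h]
    simp [Fin.prod_univ_succ, pos, neg]
    ring
  · intro ξ h1 h2
    have e0 : HF.muC ξ 0 = 1 := congrFun h2 0
    have e1 : HF.muC ξ 1 = 1 := congrFun h2 1
    rw [muC0] at e0
    rw [muC1] at e1
    have h : Pcox 6 = MvPolynomial.X 0 * MvPolynomial.X 10 -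
      MvPolynomial.X 1 ^ 2 * MvPolynomial.X 5 * MvPolynomial.X 6 := rfl
    rw [h]
    simp only [map_sub, map_mul, map_pow, MvPolynomial.eval_X]
    have h3 : ξ 5 * ξ 6 * ξ 8 ^ 2 * (ξ 0 * ξ 10 - ξ 1 ^ 2 * ξ 5 * ξ 6) = 0 := by
      linear_combination e0 - (ξ 1 * ξ 5 * ξ 6 * ξ 8 + 1) * e1
    have h5 := h1 5
    have h6 := h1 6
    have h8 := h1 8
    exact (mul_eq_zero.1 h3).resolve_left (by positivity)

private theorem conn7 : IsConnected (EDiv 7) := by
  refine conn_binom 7 1 1 one_ne_zero ?_ (fun _ => 1) (fun _ => one_ne_zero) ?_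
  · intro ξ
    have h : Pcox 7 = MvPolynomial.X 3 * MvPolynomial.X 10 -
      MvPolynomial.X 4 ^ 2 * MvPolynomial.X 5 * MvPolynomial.X 7 := rfl
    rw [h]
    simp [Fin.prod_univ_succ, pos, neg]
    ring
  · intro ξ h1 h2
    have e3 : HF.muC ξ 3 = 1 := congrFun h2 3
    have e4 : HF.muC ξ 4 = 1 := congrFun h2 4
    rw [muC3] at e3
    rw [muC4] at e4
    have h : Pcox 7 = MvPolynomial.X 3 * MvPolynomial.X 10 -
      MvPolynomial.X 4 ^ 2 * MvPolynomial.X 5 * MvPolynomial.X 7 := rfl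
    rw [h]
    simp only [map_sub, map_mul, map_pow, MvPolynomial.eval_X]
    have h3 : ξ 5 * ξ 7 * ξ 9 ^ 2 * (ξ 3 * ξ 10 - ξ 4 ^ 2 * ξ 5 * ξ 7) = 0 := by
      linear_combination e3 - (ξ 4 * ξ 5 * ξ 7 * ξ 9 + 1) * e4
    have h5 := h1 5
    have h6 := h1 7
    have h8 := h1 9
    exact (mul_eq_zero.1 h3).resolve_left (by positivity)

private theorem conn8 : IsConnected (EDiv 8) := by
  refine conn_binom 8 2 (-1) (by norm_num) ?_ ![1, 1, Complex.I, 1, 1] ?_ ?_
  · intro ξ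
    have h : Pcox 8 = MvPolynomial.X 0 * MvPolynomial.X 3 +
      MvPolynomial.X 2 ^ 2 * MvPolynomial.X 6 * MvPolynomial.X 7 := rfl
    rw [h]
    simp [Fin.prod_univ_succ, pos, neg]
    ring
  · intro j
    fin_cases j
    · exact one_ne_zero
    · exact one_ne_zero
    · exact Complex.I_ne_zero
    · exact one_ne_zero
    · exact one_ne_zero
  · intro ξ h1 h2
    have e0 : HF.muC ξ 0 = 1 := congrFun h2 0
    have e2 : HF.muC ξ 2 = Complex.I := congrFun h2 2
    have e3 : HF.muC ξ 3 = 1 := congrFun h2 3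
    rw [muC0] at e0
    rw [muC2] at e2
    rw [muC3] at e3
    have h : Pcox 8 = MvPolynomial.X 0 * MvPolynomial.X 3 +
      MvPolynomial.X 2 ^ 2 * MvPolynomial.X 6 * MvPolynomial.X 7 := rfl
    rw [h]
    simp only [map_add, map_mul, map_pow, MvPolynomial.eval_X]
    have h3 : ξ 5 ^ 2 * ξ 6 * ξ 7 * ξ 8 ^ 2 * ξ 9 ^ 2 * ξ 10 ^ 2
        * (ξ 0 * ξ 3 + ξ 2 ^ 2 * ξ 6 * ξ 7) = 0 := by
      have e5 : (ξ 2 * ξ 5 * ξ 6 * ξ 7 * ξ 8 * ξ 9 * ξ 10) ^ 2 = -1 := by
        rw [e2, Complex.I_sq]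
      linear_combination e5 + (ξ 3 * ξ 5 * ξ 7 * ξ 9 ^ 2 * ξ 10) * e0 + e3
    have h5 := h1 5
    have h6 := h1 6
    have h7 := h1 7
    have h8 := h1 8
    have h9 := h1 9
    have h10 := h1 10
    exact (mul_eq_zero.1 h3).resolve_left (by positivity)

theorem EDiv_connected (s : Fin 9) : IsConnected (EDiv s) := by
  fin_cases s
  · exact conn_ray 0 5 rfl ⟨2, 3, rfl⟩
  · exact conn_ray 1 6 rfl ⟨11, 3, rfl⟩
  · exact conn_ray 2 7 rfl ⟨5, 3, rfl⟩
  · exact conn_ray 3 8 rfl ⟨1, 3, rfl⟩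
  · exact conn_ray 4 9 rfl ⟨0, 4, rfl⟩
  · exact conn_ray 5 10 rfl ⟨7, 4, rfl⟩
  · exact conn6
  · exact conn7
  · exact conn8

end Pool.Agent.HZ
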