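import Pool.Agent.Lib.MP_3c7f5c_ag.DivDefs

/-!
# Toric log resolution, module HZ-DivF: the divisor of `f0` and the relative canonical divisor
-/

open Set

namespace Pool.Agent.HZ

theorem divf_xiPoly_cone {n r K : ℕ} (F : FanData n r K) (k : Fin K) (j : Fin n) :
    F.xiPoly k (F.cone k j) = MvPolynomial.X j := by
  unfold FanData.xiPoly
  have h : ∃ j', F.cone k j' = F.cone k j := ⟨j, rfl⟩
  rw [dif_pos h, F.inj k _ _ h.choose_spec]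

theorem divf_prod {n r K : ℕ} (F : FanData n r K) (k : Fin K) (e : Fin r → ℕ) :
    ∏ ρ, F.xiPoly k ρ ^ e ρ = ∏ j, (MvPolynomial.X j : MvPolynomial (Fin n) ℂ) ^ e (F.cone k j) := by
  classical
  rw [← Finset.prod_subset (Finset.subset_univ (Finset.univ.image (F.cone k))),
    Finset.prod_image fun j _ j' _ h => F.inj k j j' h]
  · exact Finset.prod_congr rfl fun j _ => by rw [divf_xiPoly_cone]
  · intro ρ _ h
    have h1 : ¬ ∃ j, F.cone k j = ρ := fun ⟨j, hj⟩ =>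
      h (Finset.mem_image.mpr ⟨j, Finset.mem_univ j, hj⟩)
    unfold FanData.xiPoly
    rw [dif_neg h1, one_pow]

theorem div_f_HF (k : Fin 25) : MvPolynomial.bind₁ (HF.muPoly k) f0 = ∏ s, eqnD k s ^ ND s := by
  generalize ha : HF.xiPoly k = a
  have hmu : ∀ i, HF.muPoly k i = ∏ ρ, a ρ ^ rhoD ρ i := fun i => by rw [← ha]; rfl
  have m0 : HF.muPoly k 0 = a 0 * a 5 * a 6 * a 8 ^ 2 * a 10 := by
    rw [hmu]
    simp only [Fin.prod_univ_succ, Fin.prod_univ_zero, rhoD]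
    simp
    ring
  have m1 : HF.muPoly k 1 = a 1 * a 5 * a 6 * a 8 := by
    rw [hmu]
    simp only [Fin.prod_univ_succ, Fin.prod_univ_zero, rhoD]
    simp
    ring
  have m2 : HF.muPoly k 2 = a 2 * a 5 * a 6 * a 7 * a 8 * a 9 * a 10 := by
    rw [hmu]
    simp only [Fin.prod_univ_succ, Fin.prod_univ_zero, rhoD]
    simp
    ring
  have m3 : HF.muPoly k 3 = a 3 * a 5 * a 7 * a 9 ^ 2 * a 10 := by
    rw [hmu]
    simp only [Fin.prod_univ_succ, Fin.prod_univ_zero, rhoD]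
    simp
    ring
  have m4 : HF.muPoly k 4 = a 4 * a 5 * a 7 * a 9 := by
    rw [hmu]
    simp only [Fin.prod_univ_succ, Fin.prod_univ_zero, rhoD]
    simp
    ring
  have hL : MvPolynomial.bind₁ (HF.muPoly k) f0 =
      (HF.muPoly k 0 - HF.muPoly k 1 ^ 2) ^ 2 * (HF.muPoly k 3 - HF.muPoly k 4 ^ 2) ^ 2 *
        (HF.muPoly k 0 * HF.muPoly k 3 + HF.muPoly k 2 ^ 2) := by
    simp [f0]
  have hR : ∏ s, eqnD k s ^ ND s = a 5 ^ 6 * a 6 ^ 3 * a 7 ^ 3 * a 8 ^ 6 * a 9 ^ 6 * a 10 ^ 2 *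
      (a 0 * a 10 - a 1 ^ 2 * a 5 * a 6) ^ 2 * (a 3 * a 10 - a 4 ^ 2 * a 5 * a 7) ^ 2 *
      (a 0 * a 3 + a 2 ^ 2 * a 6 * a 7) := by
    simp only [Fin.prod_univ_succ, Fin.prod_univ_zero, eqnD, Pcox, ND, ha]
    simp
    ring
  rw [hL, hR, m0, m1, m2, m3, m4]
  have e1 : a 0 * a 5 * a 6 * a 8 ^ 2 * a 10 - (a 1 * a 5 * a 6 * a 8) ^ 2 =
      a 5 * a 6 * a 8 ^ 2 * (a 0 * a 10 - a 1 ^ 2 * a 5 * a 6) := by ring
  have e2 : a 3 * a 5 * a 7 * a 9 ^ 2 * a 10 - (a 4 * a 5 * a 7 * a 9) ^ 2 =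
      a 5 * a 7 * a 9 ^ 2 * (a 3 * a 10 - a 4 ^ 2 * a 5 * a 7) := by ring
  have e3 : a 0 * a 5 * a 6 * a 8 ^ 2 * a 10 * (a 3 * a 5 * a 7 * a 9 ^ 2 * a 10) +
      (a 2 * a 5 * a 6 * a 7 * a 8 * a 9 * a 10) ^ 2 =
      a 5 ^ 2 * a 6 * a 7 * a 8 ^ 2 * a 9 ^ 2 * a 10 ^ 2 * (a 0 * a 3 + a 2 ^ 2 * a 6 * a 7) := by
    ring
  rw [e1, e2, e3]
  generalize a 0 * a 10 - a 1 ^ 2 * a 5 * a 6 = P1
  generalize a 3 * a 10 - a 4 ^ 2 * a 5 * a 7 = P2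
  generalize a 0 * a 3 + a 2 ^ 2 * a 6 * a 7 = P3
  ring

theorem div_K_HF (k : Fin 25) : ∏ j, (MvPolynomial.X j : MvPolynomial (Fin 5) ℂ) ^
    ((∑ i, HF.rho (HF.cone k j) i) - 1) = ∏ s, eqnD k s ^ (nuD s - 1) := by
  rw [← divf_prod HF k fun ρ => (∑ i, HF.rho ρ i) - 1]
  generalize ha : HF.xiPoly k = a
  have hL : ∏ ρ, a ρ ^ ((∑ i, HF.rho ρ i) - 1) =
      a 5 ^ 4 * a 6 ^ 2 * a 7 ^ 2 * a 8 ^ 3 * a 9 ^ 3 * a 10 ^ 2 := by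
    have e : (fun ρ => (∑ i, HF.rho ρ i) - 1) = ![0, 0, 0, 0, 0, 4, 2, 2, 3, 3, 2] := by
      funext ρ
      change (∑ i, rhoD ρ i) - 1 = _
      revert ρ
      decide
    have e2 : ∀ ρ, (∑ i, HF.rho ρ i) - 1 = ![0, 0, 0, 0, 0, 4, 2, 2, 3, 3, 2] ρ :=
      fun ρ => congrFun e ρ
    simp only [e2]
    simp only [Fin.prod_univ_succ, Fin.prod_univ_zero]
    simp
    ring
  have hR : ∏ s, eqnD k s ^ (nuD s - 1) =
      a 5 ^ 4 * a 6 ^ 2 * a 7 ^ 2 * a 8 ^ 3 * a 9 ^ 3 * a 10 ^ 2 := by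
    simp only [Fin.prod_univ_succ, Fin.prod_univ_zero, eqnD, Pcox, nuD, ha]
    simp
    ring
  rw [hL, hR]

end Pool.Agent.HZ
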