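import Pool.Agent.Lib.MP_3c7f5c_ag.DivDefs

/-! Jacobian determinant of the monomial maps in the charts. -/

open Set

namespace Pool.Agent.HZ

namespace FanData

variable {n r K : ℕ} (F : FanData n r K)

private theorem jac_xiPoly (k : Fin K) (j : Fin n) :
    F.xiPoly k (F.cone k j) = MvPolynomial.X j := by
  unfold xiPoly
  have h : ∃ j', F.cone k j' = F.cone k j := ⟨j, rfl⟩
  rw [dif_pos h, F.inj k _ _ h.choose_spec]

private theorem jac_muPoly_eq (k : Fin K) (i : Fin n) :
    F.muPoly k i = ∏ j, (MvPolynomial.X j : MvPolynomial (Fin n) ℂ) ^ F.rho (F.cone k j) i := by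
  unfold muPoly
  symm
  refine Fintype.prod_of_injective (F.cone k) (fun a b h => F.inj k a b h) _ _ ?_ ?_
  · intro ρ hρ
    have h : ¬ ∃ j, F.cone k j = ρ := fun ⟨j, hj⟩ => hρ ⟨j, hj⟩
    have : F.xiPoly k ρ = 1 := by
      unfold xiPoly
      rw [dif_neg h]
    rw [this, one_pow]
  · intro j
    rw [F.jac_xiPoly]

private theorem jac_euler (k : Fin K) (i j : Fin n) :
    (MvPolynomial.X j : MvPolynomial (Fin n) ℂ) * MvPolynomial.pderiv j (F.muPoly k i) =
      F.muPoly k i * MvPolynomial.C (F.rho (F.cone k j) i : ℂ) := by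
  have h : F.muPoly k i = MvPolynomial.monomial
      (Finsupp.equivFunOnFinite.symm fun j => F.rho (F.cone k j) i) (1 : ℂ) := by
    rw [F.jac_muPoly_eq, MvPolynomial.monomial_eq, MvPolynomial.C_1, one_mul,
      Finsupp.prod_fintype _ _ (fun i => pow_zero _)]
    rfl
  rw [h, MvPolynomial.X_mul_pderiv_monomial, nsmul_eq_mul, mul_comm]
  congr 1

private theorem jac_det_ne (k : Fin K) :
    (Matrix.of fun i j => (F.rho (F.cone k j) i : ℂ)).det ≠ 0 := by
  have h : (Matrix.of fun j i => (F.B k j i : ℂ)) *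
      (Matrix.of fun i j => (F.rho (F.cone k j) i : ℂ)) = 1 := by
    ext j j'
    rw [Matrix.mul_apply, Matrix.one_apply]
    simp only [Matrix.of_apply]
    have h2 : ((∑ i, F.B k j i * (F.rho (F.cone k j') i : ℤ) : ℤ) : ℂ) =
        ((if j = j' then 1 else 0 : ℤ) : ℂ) := by rw [F.BA k j j']
    push_cast at h2
    exact h2
  intro h0
  have h1 := congrArg Matrix.det h
  rw [Matrix.det_mul, h0, mul_zero, Matrix.det_one] at h1
  exact zero_ne_one h1

private theorem jac_one_le (k : Fin K) (j : Fin n) : 1 ≤ ∑ i, F.rho (F.cone k j) i := by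
  by_contra h
  have h0 : ∑ i, F.rho (F.cone k j) i = 0 := by omega
  rw [Finset.sum_eq_zero_iff] at h0
  have h1 := F.BA k j j
  rw [if_pos rfl, Finset.sum_eq_zero (fun i hi => by rw [h0 i hi]; simp)] at h1
  exact zero_ne_one h1

theorem jac_muPoly (k : Fin K) : ∃ c : ℂ, c ≠ 0 ∧ jacDet (F.muPoly k) =
    MvPolynomial.C c * ∏ j, MvPolynomial.X j ^ ((∑ i, F.rho (F.cone k j) i) - 1) := by
  refine ⟨_, F.jac_det_ne k, ?_⟩
  have hX : (∏ j : Fin n, (MvPolynomial.X j : MvPolynomial (Fin n) ℂ)) ≠ 0 :=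
    Finset.prod_ne_zero_iff.2 fun j _ => MvPolynomial.X_ne_zero j
  apply mul_left_cancel₀ hX
  have h1 : (∏ j : Fin n, (MvPolynomial.X j : MvPolynomial (Fin n) ℂ)) * jacDet (F.muPoly k) =
      (Matrix.of fun i j => (MvPolynomial.X j : MvPolynomial (Fin n) ℂ) *
        MvPolynomial.pderiv j (F.muPoly k i)).det := by
    rw [jacDet]
    exact (Matrix.det_mul_row (fun j => (MvPolynomial.X j : MvPolynomial (Fin n) ℂ)) _).symm
  have h2 : (Matrix.of fun i j => (MvPolynomial.X j : MvPolynomial (Fin n) ℂ) *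
        MvPolynomial.pderiv j (F.muPoly k i)).det =
      (∏ i, F.muPoly k i) * MvPolynomial.C
        (Matrix.of fun i j => (F.rho (F.cone k j) i : ℂ)).det := by
    simp only [F.jac_euler]
    rw [RingHom.map_det]
    exact Matrix.det_mul_column (fun i => F.muPoly k i) _
  have h3 : (∏ i, F.muPoly k i) = ∏ j, (MvPolynomial.X j : MvPolynomial (Fin n) ℂ) ^
      (∑ i, F.rho (F.cone k j) i) := by
    simp only [F.jac_muPoly_eq]
    rw [Finset.prod_comm]
    refine Finset.prod_congr rfl fun j _ => ?_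
    rw [Finset.prod_pow_eq_pow_sum]
  have h4 : (∏ j, (MvPolynomial.X j : MvPolynomial (Fin n) ℂ) ^ (∑ i, F.rho (F.cone k j) i)) =
      (∏ j : Fin n, (MvPolynomial.X j : MvPolynomial (Fin n) ℂ)) *
        ∏ j, (MvPolynomial.X j : MvPolynomial (Fin n) ℂ) ^ ((∑ i, F.rho (F.cone k j) i) - 1) := by
    rw [← Finset.prod_mul_distrib]
    refine Finset.prod_congr rfl fun j _ => ?_
    rw [← pow_succ', Nat.sub_add_cancel (F.jac_one_le k j)]
  rw [h1, h2, h3, h4]
  ring

end FanData

end Pool.Agent.HZ
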