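import Pool.Agent.Lib.MP_3c7f5c_ag.Res.Cox2
import Pool.Agent.Lib.MP_3c7f5c_ag.Res.Top
import Pool.Agent.Lib.MP_3c7f5c_ag.Res.Cover

/-!
# The morphism `mu` is proper and birational
-/

set_option autoImplicit false

open Set

namespace Pool.Agent.HZ

namespace FanData
variable {n r K : ℕ} (F : FanData n r K)

private theorem xi_ne_zero (k : Fin K) (z : Fin n → ℂ) (hz : ∀ j, z j ≠ 0) (ρ : Fin r) :
    F.xi k z ρ ≠ 0 := by
  unfold xi
  split_ifs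
  · exact hz _
  · exact one_ne_zero

private theorem muC_ne_zero (k : Fin K) (z : Fin n → ℂ) (hz : ∀ j, z j ≠ 0) (i : Fin n) :
    F.muC (F.xi k z) i ≠ 0 := by
  unfold muC
  exact Finset.prod_ne_zero_iff.2 fun ρ _ => pow_ne_zero _ (xi_ne_zero F k z hz ρ)

private theorem torus_dense : Dense {z : Fin n → ℂ | ∀ j, z j ≠ 0} := by
  have h : Dense (Set.pi (univ : Set (Fin n)) fun _ => ({(0 : ℂ)}ᶜ : Set ℂ)) :=
    dense_pi univ fun _ _ => dense_compl_singleton (0 : ℂ)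
  refine h.mono fun z hz j => ?_
  exact hz j (mem_univ j)

private theorem preimage_subset (R : ℝ) (C : ℝ)
    (hC : ∀ x : Fin n → ℂ, (∀ i, x i ≠ 0) →
      (∀ i, ‖x i‖ < R) → ∃ k, ∃ z : Fin n → ℂ, (∀ j, z j ≠ 0) ∧ (∀ j, ‖z j‖ ≤ C) ∧
      F.muC (F.xi k z) = x)
    (hQ : IsClosed (⋃ k, F.chart k '' {z | ∀ j, ‖z j‖ ≤ C})) :
    F.mu ⁻¹' {x | ∀ i, ‖x i‖ < R} ⊆ ⋃ k, F.chart k '' {z | ∀ j, ‖z j‖ ≤ C} := by
  intro y hy
  by_contra hyQ
  obtain ⟨k, z, rfl⟩ := F.chart_cover y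
  have hP : IsOpen {x : Fin n → ℂ | ∀ i, ‖x i‖ < R} := by
    have e : {x : Fin n → ℂ | ∀ i, ‖x i‖ < R} = ⋂ i, {x | ‖x i‖ < R} := by
      ext x; simp
    rw [e]
    exact isOpen_iInter_of_finite fun i =>
      isOpen_lt (continuous_norm.comp (continuous_apply i)) continuous_const
  have hO : IsOpen (F.chart k ⁻¹' ((⋃ k, F.chart k '' {z | ∀ j, ‖z j‖ ≤ C})ᶜ ∩
      F.mu ⁻¹' {x | ∀ i, ‖x i‖ < R})) :=
    (hQ.isOpen_compl.inter (hP.preimage F.mu_continuous)).preimage (F.chart_continuous k)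
  obtain ⟨z', hz'1, hz'2⟩ := torus_dense.inter_open_nonempty _ hO ⟨z, hyQ, hy⟩
  obtain ⟨h1, h2⟩ := hz'1
  have hx := muC_ne_zero F k z' hz'2
  have h3 : ∀ i, ‖F.muC (F.xi k z') i‖ < R := by
    intro i
    rw [← F.mu_chart]
    exact h2 i
  obtain ⟨l, z'', -, h5, h6⟩ := hC _ hx h3
  have h7 := F.torus_unique k l z' z'' hx h6.symm
  apply h1
  rw [h7]
  exact mem_iUnion.2 ⟨l, z'', h5, rfl⟩

theorem mu_proper : IsProperMap F.mu := by
  have : T2Space F.Y := F.t2Y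
  rw [isProperMap_iff_isCompact_preimage]
  refine ⟨F.mu_continuous, fun C₀ hC₀ => ?_⟩
  obtain ⟨R₀, hR₀⟩ := hC₀.isBounded.exists_norm_le
  obtain ⟨C, hC⟩ := F.torus_bounded (max R₀ 0 + 1) (by linarith [le_max_right R₀ 0])
  have hbox : IsCompact {z : Fin n → ℂ | ∀ j, ‖z j‖ ≤ C} := by
    have e : {z : Fin n → ℂ | ∀ j, ‖z j‖ ≤ C} =
        Set.pi (univ : Set (Fin n)) fun _ => Metric.closedBall (0 : ℂ) C := by
      ext z
      simp
    rw [e]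
    exact isCompact_univ_pi fun _ => isCompact_closedBall _ _
  have hQ : IsCompact (⋃ k, F.chart k '' {z | ∀ j, ‖z j‖ ≤ C}) :=
    isCompact_iUnion fun k => hbox.image (F.chart_continuous k)
  refine hQ.of_isClosed_subset (hC₀.isClosed.preimage F.mu_continuous) ?_
  have hsub : C₀ ⊆ {x : Fin n → ℂ | ∀ i, ‖x i‖ < max R₀ 0 + 1} := by
    intro x hx i
    have h1 := hR₀ x hx
    have h2 := norm_le_pi_norm x i
    have h3 := le_max_left R₀ 0
    linarith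
  exact Subset.trans (preimage_mono hsub)
    (preimage_subset F (max R₀ 0 + 1) C hC hQ.isClosed)

theorem mu_birational (x : Fin n → ℂ) (hx : ∀ i, x i ≠ 0) : ∃! y, F.mu y = x := by
  obtain ⟨z, -, hz⟩ := F.torus_exists x hx ⟨0, F.Kpos⟩
  refine ⟨F.chart ⟨0, F.Kpos⟩ z, ?_, fun y hy => ?_⟩
  · change F.mu (F.chart ⟨0, F.Kpos⟩ z) = x
    rw [F.mu_chart, hz]
  · obtain ⟨l, z', rfl⟩ := F.chart_cover y
    have hy' : F.muC (F.xi l z') = x := by rw [← F.mu_chart]; exact hy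
    refine F.torus_unique l ⟨0, F.Kpos⟩ z' z ?_ ?_
    · rw [hy']; exact hx
    · rw [hy', hz]

end FanData

end Pool.Agent.HZ
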