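import Pool.Agent.Lib.MP_3c7f5c_ag.DivDefs

/-!
# HZ-Snc: normal crossings
-/

open Set

namespace Pool.Agent.HZ

private theorem xiPoly_cone {n r K : ℕ} (F : FanData n r K) (k : Fin K) (j : Fin n) :
    F.xiPoly k (F.cone k j) = MvPolynomial.X j := by
  have h : ∃ j', F.cone k j' = F.cone k j := ⟨j, rfl⟩
  unfold FanData.xiPoly
  rw [dif_pos h]
  congr 1
  exact F.inj k _ _ h.choose_spec

private theorem xiPoly_other {n r K : ℕ} (F : FanData n r K) (k : Fin K) (ρ : Fin r)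
    (h : ∀ j, F.cone k j ≠ ρ) : F.xiPoly k ρ = 1 := by
  have h' : ¬ ∃ j, F.cone k j = ρ := fun ⟨j, hj⟩ => h j hj
  unfold FanData.xiPoly
  rw [dif_neg h']

/-- value of the Cox coordinate -/
private noncomputable def xv (k : Fin 25) (z : Fin 5 → ℂ) (ρ : Fin 11) : ℂ :=
  MvPolynomial.eval z (HF.xiPoly k ρ)

/-- derivative of the Cox coordinate -/
private noncomputable def dv (k : Fin 25) (z : Fin 5 → ℂ) (j : Fin 5) (ρ : Fin 11) : ℂ :=
  MvPolynomial.eval z (MvPolynomial.pderiv j (HF.xiPoly k ρ))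

private theorem xv_other (k : Fin 25) (z : Fin 5 → ℂ) (ρ : Fin 11) (h : ∀ j, coneD k j ≠ ρ) :
    xv k z ρ = 1 := by
  unfold xv
  rw [xiPoly_other HF k ρ h, map_one]

private theorem dv_other (k : Fin 25) (z : Fin 5 → ℂ) (j : Fin 5) (ρ : Fin 11)
    (h : ∀ j, coneD k j ≠ ρ) : dv k z j ρ = 0 := by
  unfold dv
  rw [xiPoly_other HF k ρ h, MvPolynomial.pderiv_one, map_zero]

private theorem dv_eq (k : Fin 25) (z : Fin 5 → ℂ) (j : Fin 5) (ρ : Fin 11) :
    dv k z j ρ = if coneD k j = ρ then 1 else 0 := by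
  by_cases h : ∃ j', coneD k j' = ρ
  · obtain ⟨j', rfl⟩ := h
    unfold dv
    rw [show coneD k j' = HF.cone k j' from rfl, xiPoly_cone, MvPolynomial.pderiv_X]
    by_cases hj : j = j'
    · subst hj
      simp [HF]
    · rw [Pi.single_eq_of_ne (Ne.symm hj), map_zero, if_neg]
      intro hc
      exact hj (dataInj k _ _ hc)
  · push Not at h
    rw [dv_other k z j ρ h, if_neg (h j)]

/-- `z_j ∂_j ξ_ρ = ξ_ρ` or `0` -/
private theorem zdv (k : Fin 25) (z : Fin 5 → ℂ) (j : Fin 5) (ρ : Fin 11) :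
    z j * dv k z j ρ = xv k z ρ * dv k z j ρ := by
  rw [dv_eq]
  by_cases h : coneD k j = ρ
  · subst h
    unfold xv
    rw [show coneD k j = HF.cone k j from rfl, xiPoly_cone, MvPolynomial.eval_X]
  · rw [if_neg h, mul_zero, mul_zero]

private def w6 : Fin 11 → ℤ := ![1, -2, 0, 0, 0, -1, -1, 0, 0, 0, 1]
private def w7 : Fin 11 → ℤ := ![0, 0, 0, 1, -2, -1, 0, -1, 0, 0, 1]
private def w8 : Fin 11 → ℤ := ![1, 0, -2, 1, 0, 0, -1, -1, 0, 0, 0]

private theorem wdata1 : ∀ k : Fin 25, (∑ j, w6 (coneD k j) * BD k j 1 = -2) ∧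
    (∑ j, w7 (coneD k j) * BD k j 1 = 0) ∧ (∑ j, w8 (coneD k j) * BD k j 1 = 0) := by
  decide +kernel

private theorem wdata4 : ∀ k : Fin 25, (∑ j, w6 (coneD k j) * BD k j 4 = 0) ∧
    (∑ j, w7 (coneD k j) * BD k j 4 = -2) ∧ (∑ j, w8 (coneD k j) * BD k j 4 = 0) := by
  decide +kernel

private theorem wdata2 : ∀ k : Fin 25, (∑ j, w6 (coneD k j) * BD k j 2 = 0) ∧
    (∑ j, w7 (coneD k j) * BD k j 2 = 0) ∧ (∑ j, w8 (coneD k j) * BD k j 2 = -2) := by
  decide +kernel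

/-- the ray `ρ` belongs to the cone `k` -/
private def inC (k : Fin 25) (ρ : Fin 11) : Bool :=
  coneD k 0 == ρ || coneD k 1 == ρ || coneD k 2 == ρ || coneD k 3 == ρ || coneD k 4 == ρ

private theorem inC_true {k : Fin 25} {ρ : Fin 11} (h : inC k ρ = true) : ∃ j, coneD k j = ρ := by
  unfold inC at h
  simp only [Bool.or_eq_true, beq_iff_eq] at h
  rcases h with (((h | h) | h) | h) | h
  exacts [⟨0, h⟩, ⟨1, h⟩, ⟨2, h⟩, ⟨3, h⟩, ⟨4, h⟩]

private theorem inC_false {k : Fin 25} {ρ : Fin 11} (h : inC k ρ = false) :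
    ∀ j, coneD k j ≠ ρ := by
  unfold inC at h
  simp only [Bool.or_eq_false_iff, beq_eq_false_iff_ne] at h
  obtain ⟨⟨⟨⟨h0, h1⟩, h2⟩, h3⟩, h4⟩ := h
  intro j
  fin_cases j
  exacts [h0, h1, h2, h3, h4]

private def z6b (k : Fin 25) : Bool :=
  (!inC k 1 && !inC k 5 && !inC k 6) || (!inC k 0 && !inC k 10)
private def z7b (k : Fin 25) : Bool :=
  (!inC k 4 && !inC k 5 && !inC k 7) || (!inC k 3 && !inC k 10)
private def z8b (k : Fin 25) : Bool :=
  (!inC k 2 && !inC k 6 && !inC k 7) || (!inC k 0 && !inC k 3)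

private theorem zdata : ∀ k : Fin 25,
    ((z6b k || (inC k 0 && !inC k 10 && z8b k)) &&
    (z7b k || (inC k 3 && !inC k 10 && z8b k)) &&
    (z8b k || (inC k 0 && !inC k 3 && z6b k) ||
      (inC k 3 && !inC k 0 && z7b k))) = true := by
  decide +kernel

private theorem w_sum (k : Fin 25) (z : Fin 5 → ℂ) (j : Fin 5) (w : Fin 11 → ℤ) :
    ((w (coneD k j) : ℤ) : ℂ) = ∑ ρ, (w ρ : ℂ) * dv k z j ρ := by
  simp only [dv_eq, mul_ite, mul_one, mul_zero]
  rw [Finset.sum_ite_eq Finset.univ (coneD k j) (fun ρ => ((w ρ : ℤ) : ℂ))]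
  simp

private theorem ray_eq (k : Fin 25) (z : Fin 5 → ℂ) (j : Fin 5) (s : Fin 9) (ρ : Fin 11)
    (h : Pcox s = MvPolynomial.X ρ) :
    MvPolynomial.eval z (MvPolynomial.pderiv j (eqnD k s)) = dv k z j ρ ∧
    MvPolynomial.eval z (eqnD k s) = xv k z ρ := by
  unfold eqnD dv xv
  rw [h, MvPolynomial.aeval_X]
  exact ⟨rfl, rfl⟩

private theorem eq6 (k : Fin 25) (z : Fin 5 → ℂ) (j : Fin 5) :
    MvPolynomial.eval z (MvPolynomial.pderiv j (eqnD k 6)) =
      dv k z j 0 * xv k z 10 + xv k z 0 * dv k z j 10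
      - (2 * xv k z 1 * dv k z j 1 * xv k z 5 * xv k z 6
        + xv k z 1 ^ 2 * dv k z j 5 * xv k z 6 + xv k z 1 ^ 2 * xv k z 5 * dv k z j 6) ∧
    MvPolynomial.eval z (eqnD k 6) =
      xv k z 0 * xv k z 10 - xv k z 1 ^ 2 * xv k z 5 * xv k z 6 := by
  have h : Pcox 6 = MvPolynomial.X 0 * MvPolynomial.X 10 -
      MvPolynomial.X 1 ^ 2 * MvPolynomial.X 5 * MvPolynomial.X 6 := rfl
  unfold eqnD dv xv
  rw [h]
  simp only [map_sub, map_mul, map_pow, MvPolynomial.aeval_X, Derivation.leibniz,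
    Derivation.leibniz_pow, smul_eq_mul, map_add, nsmul_eq_mul, map_natCast]
  constructor
  · push_cast
    ring
  · trivial

private theorem eq7 (k : Fin 25) (z : Fin 5 → ℂ) (j : Fin 5) :
    MvPolynomial.eval z (MvPolynomial.pderiv j (eqnD k 7)) =
      dv k z j 3 * xv k z 10 + xv k z 3 * dv k z j 10
      - (2 * xv k z 4 * dv k z j 4 * xv k z 5 * xv k z 7
        + xv k z 4 ^ 2 * dv k z j 5 * xv k z 7 + xv k z 4 ^ 2 * xv k z 5 * dv k z j 7) ∧
    MvPolynomial.eval z (eqnD k 7) =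
      xv k z 3 * xv k z 10 - xv k z 4 ^ 2 * xv k z 5 * xv k z 7 := by
  have h : Pcox 7 = MvPolynomial.X 3 * MvPolynomial.X 10 -
      MvPolynomial.X 4 ^ 2 * MvPolynomial.X 5 * MvPolynomial.X 7 := rfl
  unfold eqnD dv xv
  rw [h]
  simp only [map_sub, map_mul, map_pow, MvPolynomial.aeval_X, Derivation.leibniz,
    Derivation.leibniz_pow, smul_eq_mul, map_add, nsmul_eq_mul, map_natCast]
  constructor
  · push_cast
    ring
  · trivial

private theorem eq8 (k : Fin 25) (z : Fin 5 → ℂ) (j : Fin 5) :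
    MvPolynomial.eval z (MvPolynomial.pderiv j (eqnD k 8)) =
      dv k z j 0 * xv k z 3 + xv k z 0 * dv k z j 3
      + (2 * xv k z 2 * dv k z j 2 * xv k z 6 * xv k z 7
        + xv k z 2 ^ 2 * dv k z j 6 * xv k z 7 + xv k z 2 ^ 2 * xv k z 6 * dv k z j 7) ∧
    MvPolynomial.eval z (eqnD k 8) =
      xv k z 0 * xv k z 3 + xv k z 2 ^ 2 * xv k z 6 * xv k z 7 := by
  have h : Pcox 8 = MvPolynomial.X 0 * MvPolynomial.X 3 +
      MvPolynomial.X 2 ^ 2 * MvPolynomial.X 6 * MvPolynomial.X 7 := rfl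
  unfold eqnD dv xv
  rw [h]
  simp only [map_mul, map_pow, MvPolynomial.aeval_X, Derivation.leibniz,
    Derivation.leibniz_pow, smul_eq_mul, map_add, nsmul_eq_mul, map_natCast]
  constructor
  · push_cast
    ring
  · trivial

/-- the main linear algebra statement -/
private theorem snc_core (k : Fin 25) (z : Fin 5 → ℂ) (β : Fin 9 → ℂ)
    (h0 : ∀ s, β s * MvPolynomial.eval z (eqnD k s) = 0)
    (h1 : ∀ j, ∑ s, β s * MvPolynomial.eval z (MvPolynomial.pderiv j (eqnD k s)) = 0) :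
    ∀ s, β s = 0 := by
  set x := xv k z with hx
  set d := dv k z with hd
  have r0 := fun j => ray_eq k z j 0 5 rfl
  have r1 := fun j => ray_eq k z j 1 6 rfl
  have r2 := fun j => ray_eq k z j 2 7 rfl
  have r3 := fun j => ray_eq k z j 3 8 rfl
  have r4 := fun j => ray_eq k z j 4 9 rfl
  have r5 := fun j => ray_eq k z j 5 10 rfl
  have b0 : β 0 * x 5 = 0 := by rw [hx, ← (r0 0).2]; exact h0 0
  have b1 : β 1 * x 6 = 0 := by rw [hx, ← (r1 0).2]; exact h0 1
  have b2 : β 2 * x 7 = 0 := by rw [hx, ← (r2 0).2]; exact h0 2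
  have b3 : β 3 * x 8 = 0 := by rw [hx, ← (r3 0).2]; exact h0 3
  have b4 : β 4 * x 9 = 0 := by rw [hx, ← (r4 0).2]; exact h0 4
  have b5 : β 5 * x 10 = 0 := by rw [hx, ← (r5 0).2]; exact h0 5
  have b6 : β 6 * (x 0 * x 10 - x 1 ^ 2 * x 5 * x 6) = 0 := by
    rw [hx, ← (eq6 k z 0).2]; exact h0 6
  have b7 : β 7 * (x 3 * x 10 - x 4 ^ 2 * x 5 * x 7) = 0 := by
    rw [hx, ← (eq7 k z 0).2]; exact h0 7
  have b8 : β 8 * (x 0 * x 3 + x 2 ^ 2 * x 6 * x 7) = 0 := by
    rw [hx, ← (eq8 k z 0).2]; exact h0 8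
  have h2 : ∀ j, β 0 * d j 5 + β 1 * d j 6 + β 2 * d j 7 + β 3 * d j 8 + β 4 * d j 9
      + β 5 * d j 10
      + β 6 * (d j 0 * x 10 + x 0 * d j 10
      - (2 * x 1 * d j 1 * x 5 * x 6 + x 1 ^ 2 * d j 5 * x 6 + x 1 ^ 2 * x 5 * d j 6))
      + β 7 * (d j 3 * x 10 + x 3 * d j 10
      - (2 * x 4 * d j 4 * x 5 * x 7 + x 4 ^ 2 * d j 5 * x 7 + x 4 ^ 2 * x 5 * d j 7))
      + β 8 * (d j 0 * x 3 + x 0 * d j 3
      + (2 * x 2 * d j 2 * x 6 * x 7 + x 2 ^ 2 * d j 6 * x 7 + x 2 ^ 2 * x 6 * d j 7)) = 0 := by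
    intro j
    have h := h1 j
    rw [Fin.sum_univ_castSucc, Fin.sum_univ_eight] at h
    have e8 : (Fin.last 8 : Fin 9) = 8 := rfl
    have c0 : (Fin.castSucc (0 : Fin 8) : Fin 9) = 0 := rfl
    have c1 : (Fin.castSucc (1 : Fin 8) : Fin 9) = 1 := rfl
    have c2 : (Fin.castSucc (2 : Fin 8) : Fin 9) = 2 := rfl
    have c3 : (Fin.castSucc (3 : Fin 8) : Fin 9) = 3 := rfl
    have c4 : (Fin.castSucc (4 : Fin 8) : Fin 9) = 4 := rfl
    have c5 : (Fin.castSucc (5 : Fin 8) : Fin 9) = 5 := rfl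
    have c6 : (Fin.castSucc (6 : Fin 8) : Fin 9) = 6 := rfl
    have c7 : (Fin.castSucc (7 : Fin 8) : Fin 9) = 7 := rfl
    rw [e8, c0, c1, c2, c3, c4, c5, c6, c7, (r0 j).1, (r1 j).1, (r2 j).1, (r3 j).1, (r4 j).1,
      (r5 j).1, (eq6 k z j).1, (eq7 k z j).1, (eq8 k z j).1] at h
    exact h
  -- multiply by `z j`
  have hz : ∀ j ρ, z j * d j ρ = x ρ * d j ρ := fun j ρ => zdv k z j ρ
  have h3 : ∀ j, β 6 * (x 0 * x 10) * (w6 (coneD k j) : ℂ) + β 7 * (x 3 * x 10) * (w7 (coneD k j) : ℂ)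
      + β 8 * (x 0 * x 3) * (w8 (coneD k j) : ℂ) = 0 := by
    intro j
    rw [w_sum k z j w6, w_sum k z j w7, w_sum k z j w8]
    have s6 : ∑ ρ, ((w6 ρ : ℤ) : ℂ) * dv k z j ρ
        = d j 0 - 2 * d j 1 - d j 5 - d j 6 + d j 10 := by
      simp [Fin.sum_univ_succ, w6]
      ring
    have s7 : ∑ ρ, ((w7 ρ : ℤ) : ℂ) * dv k z j ρ
        = d j 3 - 2 * d j 4 - d j 5 - d j 7 + d j 10 := by
      simp [Fin.sum_univ_succ, w7]
      ring
    have s8 : ∑ ρ, ((w8 ρ : ℤ) : ℂ) * dv k z j ρ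
        = d j 0 - 2 * d j 2 + d j 3 - d j 6 - d j 7 := by
      simp [Fin.sum_univ_succ, w8]
      ring
    rw [s6, s7, s8]
    linear_combination (z j) * h2 j
      - β 0 * hz j 5 - d j 5 * b0 - β 1 * hz j 6 - d j 6 * b1 - β 2 * hz j 7 - d j 7 * b2
      - β 3 * hz j 8 - d j 8 * b3 - β 4 * hz j 9 - d j 9 * b4 - β 5 * hz j 10 - d j 10 * b5
      - β 6 * (x 10 * hz j 0 + x 0 * hz j 10 - 2 * x 1 * x 5 * x 6 * hz j 1
          - x 1 ^ 2 * x 6 * hz j 5 - x 1 ^ 2 * x 5 * hz j 6)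
      - (2 * d j 1 + d j 5 + d j 6) * b6
      - β 7 * (x 10 * hz j 3 + x 3 * hz j 10 - 2 * x 4 * x 5 * x 7 * hz j 4
          - x 4 ^ 2 * x 7 * hz j 5 - x 4 ^ 2 * x 5 * hz j 7)
      - (2 * d j 4 + d j 5 + d j 7) * b7
      - β 8 * (x 3 * hz j 0 + x 0 * hz j 3 + 2 * x 2 * x 6 * x 7 * hz j 2
          + x 2 ^ 2 * x 7 * hz j 6 + x 2 ^ 2 * x 6 * hz j 7)
      - (2 * d j 2 + d j 6 + d j 7) * b8
  have h4 : ∀ i, β 6 * (x 0 * x 10) * ((∑ j, w6 (coneD k j) * BD k j i : ℤ) : ℂ)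
      + β 7 * (x 3 * x 10) * ((∑ j, w7 (coneD k j) * BD k j i : ℤ) : ℂ)
      + β 8 * (x 0 * x 3) * ((∑ j, w8 (coneD k j) * BD k j i : ℤ) : ℂ) = 0 := by
    intro i
    push_cast
    rw [Finset.mul_sum, Finset.mul_sum, Finset.mul_sum, ← Finset.sum_add_distrib,
      ← Finset.sum_add_distrib]
    refine Finset.sum_eq_zero fun j _ => ?_
    linear_combination (BD k j i : ℂ) * h3 j
  have m6 : β 6 * (x 0 * x 10) = 0 := by
    have h := h4 1
    rw [(wdata1 k).1, (wdata1 k).2.1, (wdata1 k).2.2] at h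
    push_cast at h
    linear_combination (-1 / 2) * h
  have m7 : β 7 * (x 3 * x 10) = 0 := by
    have h := h4 4
    rw [(wdata4 k).1, (wdata4 k).2.1, (wdata4 k).2.2] at h
    push_cast at h
    linear_combination (-1 / 2) * h
  have m8 : β 8 * (x 0 * x 3) = 0 := by
    have h := h4 2
    rw [(wdata2 k).1, (wdata2 k).2.1, (wdata2 k).2.2] at h
    push_cast at h
    linear_combination (-1 / 2) * h
  have m6' : β 6 * (x 1 ^ 2 * x 5 * x 6) = 0 := by linear_combination m6 - b6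
  have m7' : β 7 * (x 4 ^ 2 * x 5 * x 7) = 0 := by linear_combination m7 - b7
  have m8' : β 8 * (x 2 ^ 2 * x 6 * x 7) = 0 := by linear_combination b8 - m8
  have x1 : ∀ ρ, (∀ j, coneD k j ≠ ρ) → x ρ = 1 := fun ρ h => xv_other k z ρ h
  have z6 : z6b k = true → β 6 = 0 := by
    intro h
    unfold z6b at h
    simp only [Bool.or_eq_true, Bool.and_eq_true, Bool.not_eq_true'] at h
    rcases h with ⟨⟨ha, hb⟩, hc⟩ | ⟨ha, hb⟩
    · rw [x1 1 (inC_false ha), x1 5 (inC_false hb), x1 6 (inC_false hc)] at m6'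
      linear_combination m6'
    · rw [x1 0 (inC_false ha), x1 10 (inC_false hb)] at m6
      linear_combination m6
  have z7 : z7b k = true → β 7 = 0 := by
    intro h
    unfold z7b at h
    simp only [Bool.or_eq_true, Bool.and_eq_true, Bool.not_eq_true'] at h
    rcases h with ⟨⟨ha, hb⟩, hc⟩ | ⟨ha, hb⟩
    · rw [x1 4 (inC_false ha), x1 5 (inC_false hb), x1 7 (inC_false hc)] at m7'
      linear_combination m7'
    · rw [x1 3 (inC_false ha), x1 10 (inC_false hb)] at m7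
      linear_combination m7
  have z8 : z8b k = true → β 8 = 0 := by
    intro h
    unfold z8b at h
    simp only [Bool.or_eq_true, Bool.and_eq_true, Bool.not_eq_true'] at h
    rcases h with ⟨⟨ha, hb⟩, hc⟩ | ⟨ha, hb⟩
    · rw [x1 2 (inC_false ha), x1 6 (inC_false hb), x1 7 (inC_false hc)] at m8'
      linear_combination m8'
    · rw [x1 0 (inC_false ha), x1 3 (inC_false hb)] at m8
      linear_combination m8
  have dd : ∀ j ρ, d j ρ = if coneD k j = ρ then 1 else 0 := fun j ρ => dv_eq k z j ρ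
  have ex : (∃ j, coneD k j = 0) → β 6 * x 10 + β 8 * x 3 = 0 := by
    rintro ⟨j, hj⟩
    have h := h2 j
    simp only [dd, hj] at h
    simpa using h
  have eu : (∃ j, coneD k j = 3) → β 7 * x 10 + β 8 * x 0 = 0 := by
    rintro ⟨j, hj⟩
    have h := h2 j
    simp only [dd, hj] at h
    simpa using h
  have hz' := zdata k
  simp only [Bool.or_eq_true, Bool.and_eq_true, Bool.not_eq_true'] at hz'
  obtain ⟨⟨d6, d7⟩, d8⟩ := hz'
  have hb6 : β 6 = 0 := by
    rcases d6 with h | ⟨⟨h, h'⟩, h''⟩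
    · exact z6 h
    · have e := ex (inC_true h)
      rw [x1 10 (inC_false h'), z8 h''] at e
      linear_combination e
  have hb7 : β 7 = 0 := by
    rcases d7 with h | ⟨⟨h, h'⟩, h''⟩
    · exact z7 h
    · have e := eu (inC_true h)
      rw [x1 10 (inC_false h'), z8 h''] at e
      linear_combination e
  have hb8 : β 8 = 0 := by
    rcases d8 with (h | ⟨⟨h, h'⟩, h''⟩) | ⟨⟨h, h'⟩, h''⟩
    · exact z8 h
    · have e := ex (inC_true h)
      rw [x1 3 (inC_false h'), z6 h''] at e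
      linear_combination e
    · have e := eu (inC_true h)
      rw [x1 0 (inC_false h'), z7 h''] at e
      linear_combination e
  rw [hb6, hb7, hb8] at h2
  have ray : ∀ (s : Fin 9) (ρ : Fin 11), β s * x ρ = 0 →
      (∀ j, coneD k j = ρ → β s = 0) → β s = 0 := by
    intro s ρ hs hj
    by_cases h : ∃ j, coneD k j = ρ
    · obtain ⟨j, h⟩ := h
      exact hj j h
    · push Not at h
      rw [x1 ρ h, mul_one] at hs
      exact hs
  intro s
  fin_cases s
  · refine ray 0 5 b0 fun j hj => ?_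
    have h := h2 j
    simp only [dd, hj] at h
    simpa using h
  · refine ray 1 6 b1 fun j hj => ?_
    have h := h2 j
    simp only [dd, hj] at h
    simpa using h
  · refine ray 2 7 b2 fun j hj => ?_
    have h := h2 j
    simp only [dd, hj] at h
    simpa using h
  · refine ray 3 8 b3 fun j hj => ?_
    have h := h2 j
    simp only [dd, hj] at h
    simpa using h
  · refine ray 4 9 b4 fun j hj => ?_
    have h := h2 j
    simp only [dd, hj] at h
    simpa using h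
  · refine ray 5 10 b5 fun j hj => ?_
    have h := h2 j
    simp only [dd, hj] at h
    simpa using h
  · exact hb6
  · exact hb7
  · exact hb8

theorem snc_HF (k : Fin 25) (z : Fin 5 → ℂ) : LinearIndependent ℂ
    (fun (s : {s : Fin 9 // MvPolynomial.eval z (eqnD k s) = 0}) (j : Fin 5) =>
      MvPolynomial.eval z (MvPolynomial.pderiv j (eqnD k s.1))) := by
  classical
  rw [Fintype.linearIndependent_iff]
  intro g hg
  have key := snc_core k z
    (fun s => if h : MvPolynomial.eval z (eqnD k s) = 0 then g ⟨s, h⟩ else 0) ?_ ?_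
  · intro s
    have h := key s.1
    rw [dif_pos s.2] at h
    exact h
  · intro s
    show (if h : MvPolynomial.eval z (eqnD k s) = 0 then g ⟨s, h⟩ else 0) * _ = 0
    split_ifs with h
    · rw [h, mul_zero]
    · rw [zero_mul]
  · intro j
    have hj := congrFun hg j
    rw [Finset.sum_apply] at hj
    simp only [Pi.smul_apply, smul_eq_mul, Pi.zero_apply] at hj
    set f : Fin 9 → ℂ := fun s =>
      (if h : MvPolynomial.eval z (eqnD k s) = 0 then g ⟨s, h⟩ else 0)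
        * MvPolynomial.eval z (MvPolynomial.pderiv j (eqnD k s)) with hf
    show ∑ s, f s = 0
    have e1 : ∑ s, f s =
        ∑ s ∈ Finset.univ.filter (fun s => MvPolynomial.eval z (eqnD k s) = 0), f s := by
      symm
      refine Finset.sum_filter_of_ne fun s _ hne => ?_
      by_contra hc
      apply hne
      rw [hf]
      simp only
      rw [dif_neg hc, zero_mul]
    rw [e1, Finset.sum_subtype
      (Finset.univ.filter (fun s => MvPolynomial.eval z (eqnD k s) = 0))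
      (p := fun s => MvPolynomial.eval z (eqnD k s) = 0) (by simp) f]
    refine Eq.trans ?_ hj
    refine Finset.sum_congr rfl fun s _ => ?_
    rw [hf]
    simp only
    rw [dif_pos s.2]

end Pool.Agent.HZ
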