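import Pool.Agent.Lib.MP_3c7f5c_ag.Res.Cox2

/-!
# The transition maps of the toric resolution are rational
-/

open Set

namespace Pool.Agent.HZ

namespace FanData

variable {n r K : ℕ} (F : FanData n r K)

theorem transition (k l : Fin K) (z : Fin n → ℂ) (h : F.chart k z ∈ Set.range (F.chart l)) :
    ∃ (q : MvPolynomial (Fin n) ℂ) (p : Fin n → MvPolynomial (Fin n) ℂ),
      MvPolynomial.eval z q ≠ 0 ∧ ∀ z', MvPolynomial.eval z' q ≠ 0 →
        F.chart k z' = F.chart l (fun i => MvPolynomial.eval z' (p i) / MvPolynomial.eval z' q) := by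
  classical
  set e : Fin n → Fin r → ℤ := fun m ρ => ∑ i, F.B l m i * (F.rho ρ i : ℤ) with he
  set M : ℕ := 1 + ∑ m, ∑ ρ, (e m ρ).natAbs with hM
  have hMe : ∀ m ρ, 0 ≤ (M : ℤ) + e m ρ := by
    intro m ρ
    have h1 : (e m ρ).natAbs ≤ ∑ ρ, (e m ρ).natAbs :=
      Finset.single_le_sum (f := fun ρ => (e m ρ).natAbs) (fun _ _ => Nat.zero_le _)
        (Finset.mem_univ ρ)
    have h2 : ∑ ρ, (e m ρ).natAbs ≤ ∑ m, ∑ ρ, (e m ρ).natAbs :=
      Finset.single_le_sum (f := fun m => ∑ ρ, (e m ρ).natAbs) (fun _ _ => Nat.zero_le _)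
        (Finset.mem_univ m)
    omega
  set O : Finset (Fin r) := Finset.univ.filter (fun ρ => ∀ j, F.cone l j ≠ ρ) with hO
  refine ⟨∏ ρ ∈ O, F.xiPoly k ρ ^ M, fun m => F.xiPoly k (F.cone l m) *
    ∏ ρ ∈ O, F.xiPoly k ρ ^ ((M : ℤ) + e m ρ).toNat, ?_, ?_⟩
  · have hadm := (F.chart_mem_range k l z).1 h
    rw [map_prod, Finset.prod_ne_zero_iff]
    intro ρ hρ
    rw [map_pow, F.eval_xiPoly]
    exact pow_ne_zero _ (hadm ρ (Finset.mem_filter.1 hρ).2)
  · intro z' hz'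
    rw [map_prod] at hz'
    have hne : ∀ ρ ∈ O, F.xi k z' ρ ≠ 0 := by
      intro ρ hρ h0
      have := Finset.prod_ne_zero_iff.1 hz' ρ hρ
      rw [map_pow, F.eval_xiPoly, h0, zero_pow (by omega)] at this
      exact this rfl
    rw [F.chart_eq_iff]
    refine ⟨fun ρ hρ => hne ρ (Finset.mem_filter.2 ⟨Finset.mem_univ _, hρ⟩), ?_⟩
    funext m
    rw [map_mul, map_prod, map_prod, F.eval_xiPoly, coord, mul_div_assoc, ← Finset.prod_div_distrib]
    congr 1
    refine Finset.prod_congr rfl fun ρ hρ => ?_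
    rw [map_pow, map_pow, F.eval_xiPoly, eq_div_iff (pow_ne_zero _ (hne ρ hρ)), ← zpow_natCast,
      ← zpow_natCast, ← zpow_add₀ (hne ρ hρ), Int.toNat_of_nonneg (hMe m ρ)]
    congr 1
    ring

end FanData

end Pool.Agent.HZ
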