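import Pool.Agent.Lib.MP_3c7f5c_ag.DivDefs
import Pool.Agent.Lib.MP_3c7f5c_ag.Res.Cox2
import Pool.Agent.Lib.MP_3c7f5c_ag.Res.Top
import Pool.Agent.Lib.MP_3c7f5c_ag.Res.Proper
import Pool.Agent.Lib.MP_3c7f5c_ag.Res.Trans
import Pool.Agent.Lib.MP_3c7f5c_ag.Res.Jac
import Pool.Agent.Lib.MP_3c7f5c_ag.Res.Div1
import Pool.Agent.Lib.MP_3c7f5c_ag.Res.Div2
import Pool.Agent.Lib.MP_3c7f5c_ag.Res.Snc
import Pool.Agent.Lib.MP_3c7f5c_ag.Res.DivF

/-! HZ-ResMain: assembly of the log resolution `RR` of `f0`. -/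

open Set
namespace Pool.Agent.HZ

noncomputable def RR : LogResolution f0 where
  Y := HF.Y
  topY := inferInstance
  t2 := FanData.t2Y HF
  mu := HF.mu
  proper := HF.mu_proper
  K := Fin 25
  finK := inferInstance
  chart := HF.chart
  chart_openEmbedding := HF.chart_openEmbedding
  chart_cover := HF.chart_cover
  transition := HF.transition
  muPoly := HF.muPoly
  mu_chart := HF.mu_chart_poly
  birational := by
    refine ⟨∏ i : Fin 5, MvPolynomial.X i, ?_, fun x hx => HF.mu_birational x fun i => ?_⟩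
    · exact Finset.prod_ne_zero_iff.2 fun i _ => MvPolynomial.X_ne_zero i
    · rw [map_prod] at hx
      have h := Finset.prod_ne_zero_iff.1 hx i (Finset.mem_univ i)
      rwa [MvPolynomial.eval_X] at h
  S := Fin 9
  finS := inferInstance
  decS := inferInstance
  E := EDiv
  E_closed := EDiv_closed
  E_connected := EDiv_connected
  N := ND
  nu := nuD
  one_le_nu := by decide
  occurs := by decide
  eqn := eqnD
  E_chart := fun k i z => chart_mem_EDiv k i z
  snc := snc_HF
  div_f := fun k => ⟨1, one_ne_zero, by rw [div_f_HF, map_one, one_mul]⟩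
  div_K := fun k => by
    obtain ⟨c, hc, h⟩ := HF.jac_muPoly k
    exact ⟨c, hc, by rw [h, div_K_HF]⟩

end Pool.Agent.HZ
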